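import Pool.Agent.Q174.Wv.Defs
import Pool.Agent.H891R2.DS.D1
import Pool.Agent.H891R2.MT.T2
import Pool.Agent.H891R2.MT.T3a
import Pool.Agent.H891R2.MT.T3c

set_option autoImplicit false

/-! Coefficients of the state sum of a planar ribbon graph. -/

namespace Pool.Agent.Q174.Wv

open LaurentPolynomial Pool.Agent.H891R2.Jones Pool.Agent.H891R2.MT Finset

/-- the coefficient as an additive map -/
noncomputable def cf (b : ℤ) : ℤ[T;T⁻¹] →+ ℤ where
  toFun f := f.coeff b
  map_zero' := rfl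
  map_add' f g := by rw [AddMonoidAlgebra.coeff_add]; rfl

theorem cf_T (a b : ℤ) : cf b (T a) = if a = b then 1 else 0 := T_apply b a

theorem dpow (a : ℤ) (N : ℕ) : (T a * (-T 2 - T (-2)) ^ N : ℤ[T;T⁻¹]) =
    ∑ i ∈ range (N + 1), ((-1) ^ N * (N.choose i : ℤ)) • T (a - 2 * N + 4 * i) := by
  have h : (-T 2 - T (-2) : ℤ[T;T⁻¹]) = -(T (-2) * (T 4 + 1)) := by
    rw [mul_add, ← T_add, mul_one]
    norm_num
    ring
  rw [h, neg_pow, mul_pow, add_pow, Finset.mul_sum, Finset.mul_sum, Finset.mul_sum]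
  refine sum_congr rfl fun i _ => ?_
  rw [one_pow, mul_one, T_pow, T_pow, zsmul_eq_mul]
  push_cast
  have e : T (a - 2 * N + 4 * i) = (T a * T (N * -2) * T (i * 4) : ℤ[T;T⁻¹]) := by
    rw [← T_add, ← T_add]; congr 1; ring
  rw [e]
  ring

theorem cf_dpow (a b : ℤ) (N : ℕ) : cf b (T a * (-T 2 - T (-2)) ^ N : ℤ[T;T⁻¹]) =
    ∑ i ∈ range (N + 1), ((-1) ^ N * (N.choose i : ℤ)) * (if a - 2 * N + 4 * i = b then 1 else 0) := by
  rw [dpow, map_sum]
  refine sum_congr rfl fun i _ => ?_
  rw [map_zsmul, cf_T, smul_eq_mul]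

theorem cf_dpow_eq (a b : ℤ) (N i : ℕ) (h : a - 2 * N + 4 * i = b) : 
    cf b (T a * (-T 2 - T (-2)) ^ N : ℤ[T;T⁻¹]) = (-1) ^ N * (N.choose i : ℤ) := by
  rw [cf_dpow]
  by_cases hi : i ∈ range (N + 1)
  · rw [Finset.sum_eq_single_of_mem i hi]
    · rw [if_pos h, mul_one]
    · intro j _ hj
      rw [if_neg, mul_zero]
      intro h2
      apply hj
      omega
  · rw [Finset.sum_eq_zero]
    · rw [mem_range, not_lt] at hi
      rw [Nat.choose_eq_zero_of_lt (by omega)]
      simp
    · intro j hj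
      rw [if_neg, mul_zero]
      intro h2
      apply hi
      have : i = j := by omega
      rw [this]; exact hj

theorem cf_dpow_lt (a b : ℤ) (N : ℕ) (h : b < a - 2 * N) : 
    cf b (T a * (-T 2 - T (-2)) ^ N : ℤ[T;T⁻¹]) = 0 := by
  rw [cf_dpow]
  apply Finset.sum_eq_zero
  intro j _
  rw [if_neg, mul_zero]
  omega

variable {k : ℕ}

/-- the state sum of a ribbon graph -/
noncomputable def SS (Γ : Ribbon k) : ℤ[T;T⁻¹] :=
  ∑ X : Finset (Fin k), T (2 * (X.card : ℤ) - k) * (-T 2 - T (-2)) ^ (Γ.curves X - 1)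

theorem curves_pos (Γ : Ribbon k) (hk : 0 < k) (S : Finset (Fin k)) : 0 < Γ.curves S := by
  unfold Ribbon.curves
  have : Nonempty (Quot (Γ.Cor S)) := ⟨Quot.mk _ ((⟨0, hk⟩, true), true)⟩
  exact Nat.card_pos

/-- the dual graph -/
theorem SS_dual (Γ : Ribbon k) : 
    invert (SS Γ) = SS (Pool.Agent.H891R2.DS.stateGraph Γ Finset.univ) := by
  unfold SS
  rw [map_sum]
  refine Finset.sum_nbij' (fun X => Xᶜ) (fun X => Xᶜ) (fun _ _ => mem_univ _) (fun _ _ => mem_univ _) 
    (fun X _ => compl_compl X) (fun X _ => compl_compl X) ?_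
  intro X _
  rw [Pool.Agent.H891R2.DS.D1.sg_curves]
  have e1 : symmDiff (univ : Finset (Fin k)) Xᶜ = X := by
    ext e
    simp [Finset.mem_symmDiff]
  have e2 : ((Xᶜ.card : ℕ) : ℤ) = k - X.card := by
    rw [Finset.card_compl, Fintype.card_fin]
    have h4 : X.card ≤ k := by
      have := Finset.card_le_univ X
      rwa [Fintype.card_fin] at this
    omega
  rw [e1, e2, map_mul, map_pow, map_sub, map_neg, invert_T, invert_T, invert_T, neg_neg]
  congr 1
  · congr 1; ring
  · congr 1; ring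

/-- the rank -/
noncomputable def rk (Γ : Ribbon k) (X : Finset (Fin k)) : ℕ := Γ.verts - Γ.comps X

theorem comps_anti (G : Ribbon k) {S U : Finset (Fin k)} (h : S ⊆ U) : G.comps U ≤ G.comps S := by
  classical
  have key : ∀ U : Finset (Fin k), G.comps (S ∪ U) ≤ G.comps S := by
    intro U
    induction U using Finset.induction with
    | empty => simp
    | insert a U _ ih =>
      rw [Finset.union_insert]
      refine le_trans ?_ ih
      rcases T3a.comps_insert G (S ∪ U) a with ⟨_, h⟩ | ⟨_, h⟩ <;> omega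
  have := key U
  rwa [Finset.union_eq_right.2 h] at this

theorem comps_le (G : Ribbon k) (S : Finset (Fin k)) : G.comps S ≤ G.verts := by
  rw [← T3c.comps_empty]
  exact comps_anti G (empty_subset S)

theorem rk_add (G : Ribbon k) (S : Finset (Fin k)) : rk G S + G.comps S = G.verts := by
  have := comps_le G S
  unfold rk; omega

theorem rk_mono (G : Ribbon k) {S U : Finset (Fin k)} (h : S ⊆ U) : rk G S ≤ rk G U := by
  have := comps_anti G h
  unfold rk; omega

theorem rk_empty (G : Ribbon k) : rk G ∅ = 0 := by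
  unfold rk; rw [T3c.comps_empty]; omega

theorem rk_insert_le (G : Ribbon k) (S : Finset (Fin k)) (e : Fin k) : rk G (insert e S) ≤ rk G S + 1 := by
  have h0 := comps_le G S
  have h1 := comps_le G (insert e S)
  rcases T3a.comps_insert G S e with ⟨_, h⟩ | ⟨_, h⟩ <;> unfold rk <;> omega

theorem rk_le_card (G : Ribbon k) (S : Finset (Fin k)) : rk G S ≤ S.card := by
  classical
  induction S using Finset.induction with
  | empty => rw [rk_empty]; omega
  | insert a U ha ih =>
    rw [card_insert_of_notMem ha]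
    have := rk_insert_le G U a
    omega

/-- the number of curves -/
theorem curves_rk (Γ : Ribbon k) (hΓ : Γ.Planar) (S : Finset (Fin k)) :
    (Γ.curves S : ℤ) = S.card + Γ.verts - 2 * rk Γ S := by
  have h1 := T2.curves_eq Γ hΓ S
  have h2 := rk_add Γ S
  zify at h2
  linarith

/-- the contribution of the set `X` to the `j`-th coefficient -/
noncomputable def wt (Γ : Ribbon k) (j : ℕ) (X : Finset (Fin k)) : ℤ :=
  if rk Γ X ≤ j then (-1) ^ (Γ.curves X - 1) * ((Γ.curves X - 1).choose (j - rk Γ X) : ℤ) else 0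

theorem SS_coeff (Γ : Ribbon k) (hk : 0 < k) (hΓ : Γ.Planar) (j : ℕ) :
    (SS Γ).coeff (2 - 2 * Γ.verts - k + 4 * j) = ∑ X : Finset (Fin k), wt Γ j X := by
  change cf _ _ = _
  unfold SS
  rw [map_sum]
  refine sum_congr rfl fun X _ => ?_
  have hc := curves_pos Γ hk X
  have hr := curves_rk Γ hΓ X
  unfold wt
  by_cases h : rk Γ X ≤ j
  · rw [if_pos h]
    apply cf_dpow_eq
    zify [hc, h]
    linarith
  · rw [if_neg h]
    apply cf_dpow_lt
    zify [hc] at h ⊢
    push Not at h
    linarith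

theorem SS_coeff_low (Γ : Ribbon k) (hk : 0 < k) (hΓ : Γ.Planar) (b : ℤ) (hb : b < 2 - 2 * Γ.verts - k) :
    (SS Γ).coeff b = 0 := by
  change cf _ _ = _
  unfold SS
  rw [map_sum]
  apply Finset.sum_eq_zero
  intro X _
  have hc := curves_pos Γ hk X
  have hr := curves_rk Γ hΓ X
  apply cf_dpow_lt
  zify [hc]
  linarith [Int.natCast_nonneg (rk Γ X)]

end Pool.Agent.Q174.Wv
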