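import Pool.Agent.Q174.Wv.Loops
import Pool.Agent.Q174.Wv.Coef

set_option autoImplicit false

/-! The bracket of the weaving diagram is the state sum of its ribbon graph. -/

namespace Pool.Agent.Q174.Wv

open LaurentPolynomial Pool.Agent.H891R2.Jones Pool.Agent.H891R2.MT Finset

variable {n m : ℕ} [NeZero m]

/-- the state with a given set of `A`-smoothed crossings -/
def ofSt (S : Finset (Fin (n * m))) : Fin (weaving n m).crossings.length → Bool :=
  fun i => decide (Fin.cast len i ∈ S)

theorem St_ofSt (S : Finset (Fin (n * m))) : St (ofSt S) = S := by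
  ext e
  unfold St ofSt
  simp

theorem ofSt_St (s : Fin (weaving n m).crossings.length → Bool) : ofSt (St s) = s := by
  funext i
  unfold ofSt
  have := mem_St s i
  by_cases h : s i = true
  · rw [h]; simpa using this.2 h
  · have h2 : s i = false := by simpa using h
    rw [h2]
    simp only [decide_eq_false_iff_not]
    exact fun h3 => h (this.1 h3)

theorem weight_St (s : Fin (weaving n m).crossings.length → Bool) : 
    Diagram.weight s = 2 * ((St s).card : ℤ) - ((n * m : ℕ) : ℤ) := by
  unfold Diagram.weight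
  have h1 : ∑ i, (if s i then (1 : ℤ) else -1) = 
      ∑ e : Fin (n * m), (if e ∈ St s then (1 : ℤ) else -1) := by
    apply Fintype.sum_equiv (finCongr len)
    intro i
    have := mem_St s i
    show _ = if Fin.cast len i ∈ St s then (1 : ℤ) else -1
    by_cases h : s i = true
    · rw [if_pos h, if_pos (this.2 h)]
    · rw [if_neg h, if_neg (fun h3 => h (this.1 h3))]
  rw [h1]
  have h2 : ∀ e : Fin (n * m), (if e ∈ St s then (1 : ℤ) else -1) = 2 * (if e ∈ St s then 1 else 0) - 1 := by
    intro e; split_ifs <;> norm_num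
  rw [sum_congr rfl fun e _ => h2 e, sum_sub_distrib, ← mul_sum]
  simp

theorem bracket_eq : (weaving n m).bracket = SS (G n m) := by
  unfold Diagram.bracket SS
  refine Finset.sum_nbij' (fun s => St s) (fun S => ofSt S) (fun _ _ => mem_univ _) (fun _ _ => mem_univ _) 
    (fun s _ => ofSt_St s) (fun S _ => St_ofSt S) ?_
  intro s _
  rw [weight_St, loops_eq]

theorem twist_of (f : ℤ[T;T⁻¹]) (a b : ℤ) (ha : ∀ j, j < a → f.coeff j = 0) (ha' : f.coeff a ≠ 0) 
    (hb : ∀ j, b < j → f.coeff j = 0) (hb' : f.coeff b ≠ 0) (j : ℕ) : 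
    twist f j = |f.coeff (b - 4 * j)| + |f.coeff (a + 4 * j)| := by
  have h1 : lo f = a := by
    unfold lo
    apply IsLeast.csInf_eq
    refine ⟨ha', fun x hx => ?_⟩
    by_contra h
    exact hx (ha x (not_le.1 h))
  have h2 : hi f = b := by
    unfold hi
    apply IsGreatest.csSup_eq
    refine ⟨hb', fun x hx => ?_⟩
    by_contra h
    exact hx (hb x (not_le.1 h))
  unfold twist
  rw [h1, h2]

theorem coeff_unit (ε : ℤ[T;T⁻¹]) (hε : ε = 1 ∨ ε = -1) (c : ℤ) (f : ℤ[T;T⁻¹]) (b : ℤ) : 
    (ε * T c * f).coeff b = f.coeff (b - c) ∨ (ε * T c * f).coeff b = -f.coeff (b - c) := by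
  have h0 : (T c * f).coeff b = f.coeff (b - c) := by
    have h := AddMonoidAlgebra.coeff_mul_single_eq_coeff_mul (r := (1 : ℤ)) (x := f) (m := c)
      (m₁ := b) (b - c) (fun m' _ => by constructor <;> intro h <;> omega)
    rw [mul_one] at h
    rw [T_mul]
    exact h
  rcases hε with rfl | rfl
  · left; rw [one_mul]; exact h0
  · right
    rw [neg_one_mul, neg_mul, AddMonoidAlgebra.coeff_neg]
    show -((T c * f).coeff b) = _
    rw [h0]

/-- the twist numbers of the weaving link from the state sums of the Tait graph and its dual -/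
theorem twist_weaving (hk : 0 < n * m) (hG : (G n m).Planar) 
    (h0 : ∑ X, wt (G n m) 0 X ≠ 0) 
    (h0' : ∑ X, wt (Pool.Agent.H891R2.DS.stateGraph (G n m) Finset.univ) 0 X ≠ 0) (j : ℕ) : 
    twist (weaving n m).fPoly j = |∑ X, wt (Pool.Agent.H891R2.DS.stateGraph (G n m) Finset.univ) j X| + 
      |∑ X, wt (G n m) j X| := by
  set G' := Pool.Agent.H891R2.DS.stateGraph (G n m) Finset.univ with hG'
  have hGp : G'.Planar := Pool.Agent.H891R2.DS.D1.planar_dual (G n m) hG
  have hinv : ∀ b, (SS (G n m)).coeff b = (SS G').coeff (-b) := by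
    intro b
    rw [hG', ← SS_dual, invert_apply, neg_neg]
  obtain ⟨ε, c, hε, hf⟩ : ∃ (ε : ℤ[T;T⁻¹]) (c : ℤ), (ε = 1 ∨ ε = -1) ∧ 
      (weaving n m).fPoly = ε * T c * SS (G n m) := by
    refine ⟨if Even (weaving n m).writhe then 1 else -1, -3 * (weaving n m).writhe, ?_, ?_⟩
    · split_ifs
      · left; rfl
      · right; rfl
    · unfold Diagram.fPoly
      rw [bracket_eq]
  have key : ∀ b, |(weaving n m).fPoly.coeff b| = |(SS (G n m)).coeff (b - c)| := by
    intro b
    rw [hf]
    rcases coeff_unit ε hε c (SS (G n m)) b with h | h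
    · rw [h]
    · rw [h, abs_neg]
  have key0 : ∀ b, (weaving n m).fPoly.coeff b = 0 ↔ (SS (G n m)).coeff (b - c) = 0 := by
    intro b
    rw [← abs_eq_zero, key, abs_eq_zero]
  set a : ℤ := 2 - 2 * (G n m).verts - ((n * m : ℕ) : ℤ) with ha
  set a' : ℤ := 2 - 2 * G'.verts - ((n * m : ℕ) : ℤ) with ha'
  have hj : ∀ j : ℕ, (SS (G n m)).coeff (a + 4 * j) = ∑ X, wt (G n m) j X := SS_coeff (G n m) hk hG
  have hj' : ∀ j : ℕ, (SS (G n m)).coeff (-a' - 4 * j) = ∑ X, wt G' j X := by
    intro j
    rw [hinv, ← SS_coeff G' hk hGp j]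
    congr 1
    ring
  rw [twist_of (weaving n m).fPoly (a + c) (-a' + c) ?_ ?_ ?_ ?_ j, key, key]
  · congr 2
    · rw [← hj' j]; congr 1; ring
    · rw [← hj j]; congr 1; ring
  · intro b hb
    rw [key0]
    exact SS_coeff_low (G n m) hk hG _ (by linarith)
  · rw [Ne, key0]
    have := hj 0
    rw [show a + c - c = a + 4 * ((0 : ℕ) : ℤ) by push_cast; ring, this]
    exact h0
  · intro b hb
    rw [key0, hinv]
    exact SS_coeff_low G' hk hGp _ (by linarith)
  · rw [Ne, key0]
    have := hj' 0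
    rw [show -a' + c - c = -a' - 4 * ((0 : ℕ) : ℤ) by push_cast; ring, this]
    exact h0'

end Pool.Agent.Q174.Wv
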