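import Pool.Agent.Q174.Wv.Loc
import Pool.Agent.Q174.Wv.Brac

set_option autoImplicit false

/-! Asymptotics of the twist numbers of the weaving links. -/

namespace Pool.Agent.Q174.Wv

open Pool.Agent.H891R2.Jones Pool.Agent.H891R2.MT Finset Filter Topology

theorem lim_inv : Tendsto (fun m : ℕ => (1 : ℝ) / ((m + 1 : ℕ) : ℝ)) atTop (𝓝 0) := by
  simpa using tendsto_one_div_add_atTop_nhds_zero_nat (𝕜 := ℝ)

theorem lim_lin (a c : ℕ) : 
    Tendsto (fun m : ℕ => ((a * (m + 1) + c : ℕ) : ℝ) / ((m + 1 : ℕ) : ℝ)) atTop (𝓝 (a : ℝ)) := by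
  have h : Tendsto (fun m : ℕ => (a : ℝ) + (c : ℝ) * ((1 : ℝ) / ((m + 1 : ℕ) : ℝ))) atTop (𝓝 ((a : ℝ) + c * 0)) := 
    tendsto_const_nhds.add (tendsto_const_nhds.mul lim_inv)
  rw [mul_zero, add_zero] at h
  refine h.congr fun m => ?_
  have h5 : ((m + 1 : ℕ) : ℝ) ≠ 0 := by positivity
  have h6 : ((a * (m + 1) + c : ℕ) : ℝ) = a * ((m + 1 : ℕ) : ℝ) + c := by push_cast; ring
  rw [h6]
  field_simp

theorem lim_of_close (f g : ℕ → ℕ) (c : ℕ) (α : ℝ) (h : ∀ m, f m ≤ g m + c ∧ g m ≤ f m + c) 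
    (hf : Tendsto (fun m => (f m : ℝ) / ((m + 1 : ℕ) : ℝ)) atTop (𝓝 α)) : 
    Tendsto (fun m => (g m : ℝ) / ((m + 1 : ℕ) : ℝ)) atTop (𝓝 α) := by
  have h0 : Tendsto (fun m : ℕ => ((g m : ℝ) - f m) / ((m + 1 : ℕ) : ℝ)) atTop (𝓝 0) := by
    apply squeeze_zero_norm (a := fun m : ℕ => (c : ℝ) * ((1 : ℝ) / ((m + 1 : ℕ) : ℝ)))
    · intro m
      rw [Real.norm_eq_abs, abs_div, Nat.abs_cast, mul_one_div]
      apply div_le_div_of_nonneg_right _ (by positivity)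
      obtain ⟨h1, h2⟩ := h m
      have h1' : (f m : ℝ) ≤ g m + c := by exact_mod_cast h1
      have h2' : (g m : ℝ) ≤ f m + c := by exact_mod_cast h2
      rw [abs_le]
      constructor <;> linarith
    · have := (tendsto_const_nhds (x := (c : ℝ)) (f := atTop)).mul lim_inv
      rwa [mul_zero] at this
  have h1 := hf.add h0
  rw [add_zero] at h1
  refine h1.congr fun m => ?_
  have : ((m + 1 : ℕ) : ℝ) ≠ 0 := by positivity
  field_simp
  ring

theorem lim_choose (f : ℕ → ℕ) (α : ℝ) 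
    (hf : Tendsto (fun m => (f m : ℝ) / ((m + 1 : ℕ) : ℝ)) atTop (𝓝 α)) (i : ℕ) : 
    Tendsto (fun m => ((f m).choose i : ℝ) / ((m + 1 : ℕ) : ℝ) ^ i) atTop (𝓝 (α ^ i / (i.factorial : ℝ))) := by
  induction i with
  | zero => simp
  | succ i ih =>
    have h1 := lim_of_close f (fun m => f m - i) i α (fun m => by omega) hf
    have h2 := (ih.mul h1).div_const ((i : ℝ) + 1)
    have h3 : α ^ i / (i.factorial : ℝ) * α / ((i : ℝ) + 1) = α ^ (i + 1) / ((i + 1).factorial : ℝ) := by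
      rw [Nat.factorial_succ]
      push_cast
      have : (i.factorial : ℝ) ≠ 0 := by positivity
      have : (i : ℝ) + 1 ≠ 0 := by positivity
      field_simp
      ring
    rw [h3] at h2
    refine h2.congr fun m => ?_
    have h4 : (((f m).choose (i + 1) : ℕ) : ℝ) * ((i : ℝ) + 1) = ((f m).choose i : ℝ) * ((f m - i : ℕ) : ℝ) := by
      exact_mod_cast Nat.choose_succ_right_eq (f m) i
    have h5 : ((m + 1 : ℕ) : ℝ) ≠ 0 := by positivity
    have h6 : (i : ℝ) + 1 ≠ 0 := by positivity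
    rw [eq_comm, div_eq_iff (by positivity), ← mul_left_inj' h6, h4, pow_succ]
    field_simp

theorem lim_AA (f g : ℕ → ℕ) (κ α : ℝ) 
    (hf : Tendsto (fun m => (f m : ℝ) / ((m + 1 : ℕ) : ℝ)) atTop (𝓝 κ)) 
    (hg : Tendsto (fun m => (g m : ℝ) / ((m + 1 : ℕ) : ℝ)) atTop (𝓝 α)) (j : ℕ) : 
    Tendsto (fun m => ((AA (f m) (g m) j : ℤ) : ℝ) / ((m + 1 : ℕ) : ℝ) ^ j) atTop 
      (𝓝 ((α - κ) ^ j / (j.factorial : ℝ))) := by
  have h1 : ∀ i ∈ range (j + 1), Tendsto (fun m => (-1 : ℝ) ^ i * (((f m).choose i : ℝ) / ((m + 1 : ℕ) : ℝ) ^ i) * 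
      (((g m - 1 - i).choose (j - i) : ℝ) / ((m + 1 : ℕ) : ℝ) ^ (j - i))) atTop 
      (𝓝 ((-1 : ℝ) ^ i * (κ ^ i / (i.factorial : ℝ)) * (α ^ (j - i) / ((j - i).factorial : ℝ)))) := by
    intro i _
    refine (tendsto_const_nhds.mul (lim_choose f κ hf i)).mul (lim_choose (fun m => g m - 1 - i) α ?_ (j - i))
    exact lim_of_close g _ (1 + i) α (fun m => by omega) hg
  have h2 := tendsto_finsetSum (range (j + 1)) h1
  have h3 : ∑ i ∈ range (j + 1), (-1 : ℝ) ^ i * (κ ^ i / (i.factorial : ℝ)) * (α ^ (j - i) / ((j - i).factorial : ℝ)) = 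
      (α - κ) ^ j / (j.factorial : ℝ) := by
    have h4 : α - κ = -κ + α := by ring
    rw [h4, add_pow, Finset.sum_div]
    refine sum_congr rfl fun i hi => ?_
    have hij : i ≤ j := by have := mem_range.1 hi; omega
    rw [Nat.cast_choose ℝ hij, neg_pow κ]
    have : (j.factorial : ℝ) ≠ 0 := by positivity
    field_simp
  rw [h3] at h2
  refine h2.congr fun m => ?_
  unfold AA
  rw [Int.cast_sum, Finset.sum_div]
  refine sum_congr rfl fun i hi => ?_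
  have hij : i ≤ j := by have := mem_range.1 hi; omega
  have h5 : ((m + 1 : ℕ) : ℝ) ^ j = ((m + 1 : ℕ) : ℝ) ^ i * ((m + 1 : ℕ) : ℝ) ^ (j - i) := by
    rw [← pow_add]; congr 1; omega
  have h6 : ((m + 1 : ℕ) : ℝ) ≠ 0 := by positivity
  rw [h5]
  push_cast at h6 ⊢
  field_simp

theorem lim_wt (n : ℕ) (hn : 2 ≤ n) (j : ℕ) (hj : 1 ≤ j) (Γ : ∀ m : ℕ, Ribbon (n * (m + 1))) (α c : ℕ) 
    (hloc : ∀ m, 2 ≤ m → Local (Γ m) (clI n (m + 1)) (9 * n))
    (hpl : ∀ m, (Γ m).Planar) (hV : ∀ m, (Γ m).verts = α * (m + 1) + c) (hα : α ≤ n) (hα1 : 1 ≤ α) (hc : c ≤ 2) :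
    Tendsto (fun m : ℕ => ((|∑ X, wt (Γ m) j X| : ℤ) : ℝ) / ((m + 1 : ℕ) : ℝ) ^ j) atTop 
      (𝓝 (((n : ℝ) - α) ^ j / (j.factorial : ℝ))) := by
  set K : ℕ := (j + 1) * (j * (2 ^ (9 * n * j)) * (2 * (9 * n * j + 1) ^ j)) with hK
  have hA := (lim_AA (fun m => n * (m + 1) + 0) (fun m => α * (m + 1) + c) n α (lim_lin n 0) (lim_lin α c) j).abs
  have hlim : |((α : ℝ) - n) ^ j / (j.factorial : ℝ)| = ((n : ℝ) - α) ^ j / (j.factorial : ℝ) := by
    rw [abs_div, Nat.abs_cast, abs_pow, abs_sub_comm, abs_of_nonneg]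
    have : (α : ℝ) ≤ n := by exact_mod_cast hα
    linarith
  rw [hlim] at hA
  have hE : Tendsto (fun m : ℕ => ((|∑ X, wt (Γ m) j X| : ℤ) : ℝ) / ((m + 1 : ℕ) : ℝ) ^ j - 
      |((AA (n * (m + 1) + 0) (α * (m + 1) + c) j : ℤ) : ℝ) / ((m + 1 : ℕ) : ℝ) ^ j|) atTop (𝓝 0) := by
    apply squeeze_zero_norm' (a := fun m : ℕ => (K : ℝ) * 
      (((n * (m + 1) + 2 : ℕ) : ℝ) / ((m + 1 : ℕ) : ℝ)) ^ (j - 1) * ((1 : ℝ) / ((m + 1 : ℕ) : ℝ)))
    · filter_upwards [eventually_ge_atTop 2] with m hm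
      have hk : 1 ≤ n * (m + 1) := Nat.mul_pos (by omega) (by omega)
      have hαm : α * (m + 1) ≤ n * (m + 1) := Nat.mul_le_mul_right _ hα
      have hα0 : 1 ≤ α * (m + 1) := Nat.mul_pos (by omega) (by omega)
      have h := main_est (hloc m hm) hk (hpl m) (by rw [hV]; omega) (n * (m + 1) + 2) j hj (by omega) 
        (by rw [hV]; omega)
      rw [hV m] at h
      set x : ℝ := ((m + 1 : ℕ) : ℝ) with hx
      have hx0 : 0 < x := by rw [hx]; positivity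
      rw [Real.norm_eq_abs, abs_div, abs_pow, abs_of_pos hx0, ← sub_div, abs_div, abs_pow, abs_of_pos hx0]
      rw [div_le_iff₀ (by positivity)]
      have h7 : (K : ℝ) * (((n * (m + 1) + 2 : ℕ) : ℝ) / x) ^ (j - 1) * (1 / x) * x ^ j = 
          (K : ℝ) * ((n * (m + 1) + 2 : ℕ) : ℝ) ^ (j - 1) := by
        have h8 : x ^ j = x ^ (j - 1) * x := by rw [← pow_succ]; congr 1; omega
        rw [h8, div_pow]
        field_simp
      rw [h7]
      have h9 : abs (abs (∑ X, wt (Γ m) j X) - abs (AA (n * (m + 1)) (α * (m + 1) + c) j)) ≤ 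
          ((K * (n * (m + 1) + 2) ^ (j - 1) : ℕ) : ℤ) := by
        refine le_trans ?_ h
        have h10 : |AA (n * (m + 1)) (α * (m + 1) + c) j| = 
            |(-1) ^ (α * (m + 1) + c - 1) * AA (n * (m + 1)) (α * (m + 1) + c) j| := by
          rw [abs_mul, abs_pow, abs_neg, abs_one, one_pow, one_mul]
        rw [h10]
        exact abs_abs_sub_abs_le _ _
      have h11 : ((abs (abs (∑ X, wt (Γ m) j X) - abs (AA (n * (m + 1)) (α * (m + 1) + c) j)) : ℤ) : ℝ) ≤ 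
          (((K * (n * (m + 1) + 2) ^ (j - 1) : ℕ) : ℤ) : ℝ) := by exact_mod_cast h9
      rw [add_zero]
      push_cast at h11 ⊢
      exact h11
    · have h1 := ((tendsto_const_nhds (x := (K : ℝ)) (f := atTop)).mul ((lim_lin n 2).pow (j - 1))).mul lim_inv
      rwa [mul_zero] at h1
  have h3 := hE.add hA
  rw [zero_add] at h3
  refine h3.congr fun m => ?_
  ring

theorem sub_half (n : ℕ) : ((n : ℝ) - ((n + 1) / 2 : ℕ)) = ((n / 2 : ℕ) : ℝ) := by
  have : n = n / 2 + (n + 1) / 2 := by omega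
  have h2 : (n : ℝ) = ((n / 2 : ℕ) : ℝ) + (((n + 1) / 2 : ℕ) : ℝ) := by exact_mod_cast this
  linarith

theorem sub_half' (n : ℕ) : ((n : ℝ) - (n / 2 : ℕ)) = ((n / 2 + n % 2 : ℕ) : ℝ) := by
  have : n = n / 2 + (n / 2 + n % 2) := by omega
  have h2 : (n : ℝ) = ((n / 2 : ℕ) : ℝ) + ((n / 2 + n % 2 : ℕ) : ℝ) := by exact_mod_cast this
  linarith

/-- the asymptotics of the twist numbers -/
theorem lim_twist (n : ℕ) (hn : 2 ≤ n) (j : ℕ) (hj : 1 ≤ j) : 
    Tendsto (fun m : ℕ => ((twist (weaving n (m + 1)).fPoly j : ℤ) : ℝ) / ((m + 1 : ℕ) : ℝ) ^ j) atTop 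
      (𝓝 ((((n / 2 + n % 2 : ℕ) : ℝ) ^ j + ((n / 2 : ℕ) : ℝ) ^ j) / (j.factorial : ℝ))) := by
  have hn0 : 0 < n := by omega
  have h1 := lim_wt n hn j hj (fun m => G n (m + 1)) ((n + 1) / 2) (if n % 2 = 0 then 1 else 0) 
    (fun m hm => local_G hn (by omega)) (fun m => planar_G hn0) (fun m => verts_G hn0) (by omega) (by omega) 
    (by split_ifs <;> omega)
  have h2 := lim_wt n hn j hj (fun m => Pool.Agent.H891R2.DS.stateGraph (G n (m + 1)) Finset.univ) (n / 2) 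
    (if n % 2 = 1 then 2 else 1) (fun m hm => local_dual hn (by omega)) 
    (fun m => Pool.Agent.H891R2.DS.D1.planar_dual (G n (m + 1)) (planar_G hn0)) (fun m => verts_dual hn0) 
    (by omega) (by omega) (by split_ifs <;> omega)
  have h3 := h2.add h1
  rw [sub_half, sub_half', ← add_div] at h3
  refine h3.congr' ?_
  filter_upwards [eventually_ge_atTop 2] with m hm
  have hk : 0 < n * (m + 1) := Nat.mul_pos hn0 (by omega)
  rw [twist_weaving hk (planar_G hn0) (wt_zero (local_G hn (by omega)) hk) 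
    (wt_zero (local_dual hn (by omega)) hk) j]
  push_cast
  rw [← add_div]

end Pool.Agent.Q174.Wv
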