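import Pool.Agent.Q174.Wv.Defs

set_option autoImplicit false

/-! The weaving diagram is closed. -/

namespace Pool.Agent.Q174.Wv

open Pool.Agent.H891R2.Jones Finset

section
variable {n m : ℕ}

theorem starts_count {P : Type} [DecidableEq P] (D : Diagram P) (p : P) : D.starts.count p = 
    (D.arcs.map Prod.fst).count p + (D.crossings.map (fun x => if x.underFwd then x.a else x.c)).count p +
    (D.crossings.map (fun x => if x.overFwd then x.b else x.d)).count p := by
  unfold Diagram.starts
  rw [List.count_append, List.count_append]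

theorem ends_count {P : Type} [DecidableEq P] (D : Diagram P) (p : P) : D.ends.count p = 
    (D.arcs.map Prod.snd).count p + (D.crossings.map (fun x => if x.underFwd then x.c else x.a)).count p +
    (D.crossings.map (fun x => if x.overFwd then x.d else x.b)).count p := by
  unfold Diagram.ends
  rw [List.count_append, List.count_append]

theorem count_flat {α : Type*} [DecidableEq α] (f g : Fin n × Fin m → α) (p : α) : 
    ((List.finRange (n * m)).flatMap (fun e => [f (idx n m e), g (idx n m e)])).count p = 
      ∑ x : Fin n × Fin m, ((if f x = p then 1 else 0) + (if g x = p then 1 else 0)) := by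
  rw [List.count_flatMap, ← Equiv.sum_comp (idx n m), ← List.sum_ofFn, List.ofFn_eq_map]
  congr 1
  apply List.map_congr_left
  intro e _
  simp [List.count_cons, add_comm]

theorem countP_sum {α : Type*} (p : α → Bool) (l : List α) : 
    l.countP p = (l.map (fun x => if p x = true then 1 else 0)).sum := by
  induction l with
  | nil => rfl
  | cons a l ih => simp [List.countP_cons, ih, add_comm]

theorem count_cr {α : Type*} [DecidableEq α] (f : Fin n × Fin m → α) (p : α) : 
    (List.ofFn (fun e : Fin (n * m) => f (idx n m e))).count p = 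
      ∑ x : Fin n × Fin m, (if f x = p then 1 else 0) := by
  rw [← Equiv.sum_comp (idx n m), List.ofFn_eq_map, ← List.sum_ofFn, List.ofFn_eq_map, 
    List.count_eq_countP, List.countP_map, countP_sum]
  congr 1
  apply List.map_congr_left
  intro e _
  simp

end

variable {n m : ℕ} [NeZero m]

theorem NE_sw (x y : Fin n × Fin m) : nextNE x = (y, .sw) ↔ 0 < y.1.val ∧ 
    x = (⟨y.1.val - 1, by omega⟩, y.2) := by
  obtain ⟨⟨i, hi⟩, k⟩ := x
  obtain ⟨⟨j, hj⟩, l⟩ := y
  unfold nextNE
  by_cases h : i + 1 < n
  · simp [h]; omega
  · simp [h]; omega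

theorem NE_se (x y : Fin n × Fin m) : nextNE x = (y, .se) ↔ y.1.val + 1 = n ∧ 
    x = (y.1, y.2 - 1) := by
  obtain ⟨⟨i, hi⟩, k⟩ := x
  obtain ⟨⟨j, hj⟩, l⟩ := y
  unfold nextNE
  by_cases h : i + 1 < n
  · simp [h]; omega
  · simp [h, eq_sub_iff_add_eq]; omega

theorem NW_sw (x y : Fin n × Fin m) : nextNW x = (y, .sw) ↔ y.1.val = 0 ∧ 
    x = (y.1, y.2 - 1) := by
  obtain ⟨⟨i, hi⟩, k⟩ := x
  obtain ⟨⟨j, hj⟩, l⟩ := y
  unfold nextNW
  by_cases h : 0 < i
  · simp [h]; omega
  · have h0 : i = 0 := by omega
    subst h0
    simp [eq_sub_iff_add_eq]; omega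

theorem NW_se (x y : Fin n × Fin m) : nextNW x = (y, .se) ↔ ∃ h : y.1.val + 1 < n, 
    x = (⟨y.1.val + 1, h⟩, y.2 - 1) := by
  obtain ⟨⟨i, hi⟩, k⟩ := x
  obtain ⟨⟨j, hj⟩, l⟩ := y
  unfold nextNW
  by_cases h : 0 < i
  · simp [h, eq_sub_iff_add_eq]; omega
  · have h0 : i = 0 := by omega
    subst h0
    simp

theorem NE_other (x y : Fin n × Fin m) (c : Corner) (h1 : c ≠ .sw) (h2 : c ≠ .se) : nextNE x ≠ (y, c) := by
  unfold nextNE
  split_ifs <;> (intro h; have := congrArg Prod.snd h; simp at this; tauto)

theorem NW_other (x y : Fin n × Fin m) (c : Corner) (h1 : c ≠ .sw) (h2 : c ≠ .se) : nextNW x ≠ (y, c) := by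
  unfold nextNW
  split_ifs <;> (intro h; have := congrArg Prod.snd h; simp at this; tauto)

omit [NeZero m] in
theorem sum_one (q : Fin n × Fin m → Prop) [DecidablePred q] (z : Fin n × Fin m) (h : ∀ x, q x ↔ x = z) :
    ∑ x : Fin n × Fin m, (if q x then 1 else 0) = 1 := by
  rw [Finset.sum_eq_single z]
  · rw [if_pos ((h z).2 rfl)]
  · intro x _ hx
    rw [if_neg (fun h' => hx ((h x).1 h'))]
  · intro h; exact absurd (mem_univ _) h

omit [NeZero m] in
theorem sum_zero (q : Fin n × Fin m → Prop) [DecidablePred q] (h : ∀ x, ¬ q x) :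
    ∑ x : Fin n × Fin m, (if q x then 1 else 0) = 0 := by
  apply Finset.sum_eq_zero
  intro x _
  rw [if_neg (h x)]

theorem arcs_fst : (weaving n m).arcs.map Prod.fst = (List.finRange (n * m)).flatMap
    (fun e => [(idx n m e, Corner.ne), (idx n m e, Corner.nw)]) := by
  unfold weaving
  rw [List.map_flatMap]
  rfl

theorem arcs_snd : (weaving n m).arcs.map Prod.snd = (List.finRange (n * m)).flatMap
    (fun e => [nextNE (idx n m e), nextNW (idx n m e)]) := by
  unfold weaving
  rw [List.map_flatMap]
  rfl

theorem crs_map (f : Crossing (Pt n m) → Pt n m) : (weaving n m).crossings.map f = 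
    List.ofFn (fun e : Fin (n * m) => f (cross n m (idx n m e))) := by
  unfold weaving
  rw [List.map_ofFn]
  rfl

/-- the weaving diagram is closed: every marked point is the start of exactly one piece and the end of
exactly one piece -/
theorem closed : (weaving n m).IsClosed := by
  rintro ⟨y, c⟩
  rw [starts_count, ends_count, arcs_fst, arcs_snd, 
    crs_map, crs_map, crs_map, crs_map, 
    count_flat (fun x => (x, Corner.ne)) (fun x => (x, Corner.nw)), count_flat nextNE nextNW, 
    count_cr (fun x => if (cross n m x).underFwd then (cross n m x).a else (cross n m x).c),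
    count_cr (fun x => if (cross n m x).overFwd then (cross n m x).b else (cross n m x).d),
    count_cr (fun x => if (cross n m x).underFwd then (cross n m x).c else (cross n m x).a),
    count_cr (fun x => if (cross n m x).overFwd then (cross n m x).d else (cross n m x).b)]
  constructor
  · rw [← sum_add_distrib, ← sum_add_distrib, ← sum_one (fun x => x = y) y (fun _ => Iff.rfl)]
    refine sum_congr rfl fun x _ => ?_
    unfold cross
    rcases c with _ | _ | _ | _ <;> by_cases hp : x.1.val % 2 = 0 <;> by_cases hx : x = y <;> simp [hp, hx]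
    all_goals (subst hx; simp [hp])
  · rw [sum_add_distrib, add_assoc]
    have h2 : ∀ c : Corner, (∑ x : Fin n × Fin m, (if (if (cross n m x).underFwd then (cross n m x).c else 
        (cross n m x).a) = (y, c) then 1 else 0)) + (∑ x : Fin n × Fin m, 
        (if (if (cross n m x).overFwd then (cross n m x).d else 
        (cross n m x).b) = (y, c) then 1 else 0)) = if c = .ne ∨ c = .nw then 1 else 0 := by
      intro c
      rw [← sum_add_distrib]
      by_cases hc : c = .ne ∨ c = .nw
      · rw [if_pos hc, ← sum_one (fun x => x = y) y (fun _ => Iff.rfl)]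
        refine sum_congr rfl fun x _ => ?_
        unfold cross
        rcases hc with rfl | rfl <;> by_cases hp : x.1.val % 2 = 0 <;> by_cases hx : x = y <;> simp [hp, hx]
        all_goals (subst hx; simp [hp])
      · rw [if_neg hc]
        apply Finset.sum_eq_zero
        intro x _
        unfold cross
        rcases c with _ | _ | _ | _ <;> by_cases hp : x.1.val % 2 = 0 <;> simp [hp] at hc ⊢
    rw [h2]
    rcases c with _ | _ | _ | _
    · -- sw
      by_cases h : 0 < y.1.val
      · rw [sum_one _ (⟨y.1.val - 1, by omega⟩, y.2) (fun x => by rw [NE_sw]; exact and_iff_right h), 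
          sum_zero _ (fun x => by rw [NW_sw]; omega)]
        simp
      · rw [sum_zero _ (fun x => by rw [NE_sw]; omega), 
          sum_one _ (y.1, y.2 - 1) (fun x => by rw [NW_sw]; exact and_iff_right (by omega))]
        simp
    · -- se
      by_cases h : y.1.val + 1 < n
      · rw [sum_zero _ (fun x => by rw [NE_se]; omega), 
          sum_one _ (⟨y.1.val + 1, h⟩, y.2 - 1) (fun x => by rw [NW_se]; exact exists_prop_of_true h)]
        simp
      · rw [sum_one _ (y.1, y.2 - 1) (fun x => by rw [NE_se]; exact and_iff_right (by omega)), 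
          sum_zero _ (fun x => by rw [NW_se]; rintro ⟨h', _⟩; exact h h')]
        simp
    · rw [sum_zero _ (fun x => NE_other x y _ (by simp) (by simp)), 
        sum_zero _ (fun x => NW_other x y _ (by simp) (by simp))]
      simp
    · rw [sum_zero _ (fun x => NE_other x y _ (by simp) (by simp)), 
        sum_zero _ (fun x => NW_other x y _ (by simp) (by simp))]
      simp

end Pool.Agent.Q174.Wv
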