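import Pool.Agent.Q174.Wv.Coef

set_option autoImplicit false

/-! Counting sets of edges of given rank. -/

namespace Pool.Agent.Q174.Wv

open LaurentPolynomial Pool.Agent.H891R2.Jones Pool.Agent.H891R2.MT Finset

variable {k : ℕ}

/-- locality: `cl` is a reflexive and symmetric relation with at most `D` neighbours such that sets
without related pairs are independent and closed -/
structure Local (Γ : Ribbon k) (cl : Fin k → Fin k → Prop) (D : ℕ) : Prop where
  refl : ∀ x, cl x x
  symm : ∀ x y, cl x y → cl y x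
  bound : ∀ (x : Fin k) (N : Finset (Fin k)), (∀ y ∈ N, cl x y) → N.card ≤ D
  indep : ∀ (Y : Finset (Fin k)), (∀ x ∈ Y, ∀ y ∈ Y, cl x y → x = y) → ∀ e, e ∉ Y → 
    Γ.comps Y = Γ.comps (insert e Y) + 1

variable {Γ : Ribbon k} {cl : Fin k → Fin k → Prop} {D : ℕ}

theorem rk_spread (h : Local Γ cl D) (Y : Finset (Fin k)) (hY : ∀ x ∈ Y, ∀ y ∈ Y, cl x y → x = y) : 
    rk Γ Y = Y.card := by
  classical
  induction Y using Finset.induction with
  | empty => rw [rk_empty]; rfl
  | insert a U ha ih =>
    have hU : ∀ x ∈ U, ∀ y ∈ U, cl x y → x = y := fun x hx y hy => 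
      hY x (mem_insert_of_mem hx) y (mem_insert_of_mem hy)
    have h1 := ih hU
    have h2 := h.indep U hU a ha
    have h3 := rk_add Γ U
    have h4 := rk_add Γ (insert a U)
    rw [card_insert_of_notMem ha]
    omega

theorem rk_spread_insert (h : Local Γ cl D) (Y : Finset (Fin k)) 
    (hY : ∀ x ∈ Y, ∀ y ∈ Y, cl x y → x = y) (e : Fin k) (he : e ∉ Y) : 
    rk Γ (insert e Y) = Y.card + 1 := by
  have h1 := rk_spread h Y hY
  have h2 := h.indep Y hY e he
  have h3 := rk_add Γ Y
  have h4 := rk_add Γ (insert e Y)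
  omega

theorem exists_spread (h : Local Γ cl D) (X : Finset (Fin k)) : 
    ∃ Y ⊆ X, (∀ x ∈ Y, ∀ y ∈ Y, cl x y → x = y) ∧ ∀ x ∈ X, ∃ y ∈ Y, cl y x := by
  classical
  induction X using Finset.induction with
  | empty => exact ⟨∅, Subset.refl _, by simp, by simp⟩
  | insert a U ha ih =>
    obtain ⟨Y, hYU, hY, hc⟩ := ih
    by_cases hh : ∃ y ∈ Y, cl y a
    · refine ⟨Y, hYU.trans (subset_insert _ _), hY, ?_⟩
      intro x hx
      rcases mem_insert.1 hx with rfl | hx
      · exact hh
      · exact hc x hx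
    · push Not at hh
      refine ⟨insert a Y, insert_subset_insert _ hYU, ?_, ?_⟩
      · intro x hx y hy hxy
        rcases mem_insert.1 hx with hxa | hx' <;> rcases mem_insert.1 hy with hya | hy'
        · rw [hxa, hya]
        · rw [hxa] at hxy
          exact absurd (h.symm _ _ hxy) (hh y hy')
        · rw [hya] at hxy
          exact absurd hxy (hh x hx')
        · exact hY x hx' y hy' hxy
      · intro x hx
        rcases mem_insert.1 hx with rfl | hx
        · exact ⟨x, mem_insert_self _ _, h.refl x⟩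
        · obtain ⟨y, hy, hyx⟩ := hc x hx
          exact ⟨y, mem_insert_of_mem hy, hyx⟩

open Classical in
/-- the neighbourhood -/
noncomputable def NB (cl : Fin k → Fin k → Prop) (Y : Finset (Fin k)) : Finset (Fin k) :=
  Y.biUnion (fun y => univ.filter (cl y))

theorem card_NB (h : Local Γ cl D) (Y : Finset (Fin k)) : (NB cl Y).card ≤ D * Y.card := by
  classical
  unfold NB
  refine card_biUnion_le.trans ?_
  rw [mul_comm, ← smul_eq_mul]
  refine Finset.sum_le_card_nsmul _ _ _ fun y _ => ?_
  exact h.bound y _ (fun z hz => (mem_filter.1 hz).2)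

theorem sub_NB {X Y : Finset (Fin k)} (h : ∀ x ∈ X, ∃ y ∈ Y, cl y x) : X ⊆ NB cl Y := by
  classical
  intro x hx
  obtain ⟨y, hy, hyx⟩ := h x hx
  unfold NB
  rw [mem_biUnion]
  exact ⟨y, hy, mem_filter.2 ⟨mem_univ _, hyx⟩⟩

theorem card_le_rk (h : Local Γ cl D) (X : Finset (Fin k)) : X.card ≤ D * rk Γ X := by
  obtain ⟨Y, hYX, hY, hc⟩ := exists_spread h X
  have h1 := rk_spread h Y hY
  have h2 := rk_mono Γ hYX
  calc X.card ≤ (NB cl Y).card := card_le_card (sub_NB hc)
    _ ≤ D * Y.card := card_NB h Y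
    _ ≤ D * rk Γ X := Nat.mul_le_mul_left _ (by omega)

theorem bad_spread (h : Local Γ cl D) (X : Finset (Fin k)) (hX : rk Γ X < X.card) : 
    ∃ Y : Finset (Fin k), Y.card < rk Γ X ∧ X ⊆ NB cl Y := by
  obtain ⟨Y, hYX, hY, hc⟩ := exists_spread h X
  have h1 := rk_spread h Y hY
  have h2 := rk_mono Γ hYX
  refine ⟨Y, ?_, sub_NB hc⟩
  rcases Nat.lt_or_ge Y.card (rk Γ X) with h3 | h3
  · exact h3
  · exfalso
    have h4 : Y.card < X.card := by omega
    obtain ⟨e, heX, heY⟩ := exists_mem_notMem_of_card_lt_card h4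
    have h5 := rk_spread_insert h Y hY e heY
    have h6 := rk_mono Γ (insert_subset heX hYX)
    omega

open Classical in
theorem bad_card (h : Local Γ cl D) (hk : 1 ≤ k) (j : ℕ) : 
    (univ.filter (fun X : Finset (Fin k) => rk Γ X = j ∧ j < X.card)).card ≤ 
      j * (k ^ (j - 1) * 2 ^ (D * j)) := by
  have hsub : univ.filter (fun X : Finset (Fin k) => rk Γ X = j ∧ j < X.card) ⊆ 
      (range j).biUnion (fun i => (powersetCard i (univ : Finset (Fin k))).biUnion 
        (fun Y => (NB cl Y).powerset)) := by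
    intro X hX
    rw [mem_filter] at hX
    obtain ⟨Y, h1, h2⟩ := bad_spread h X (by omega)
    rw [mem_biUnion]
    refine ⟨Y.card, mem_range.2 (by omega), ?_⟩
    rw [mem_biUnion]
    exact ⟨Y, mem_powersetCard.2 ⟨subset_univ _, rfl⟩, mem_powerset.2 h2⟩
  refine (card_le_card hsub).trans (card_biUnion_le.trans ?_)
  calc ∑ i ∈ range j, ((powersetCard i (univ : Finset (Fin k))).biUnion 
        (fun Y => (NB cl Y).powerset)).card ≤ ∑ i ∈ range j, k ^ (j - 1) * 2 ^ (D * j) := by
        refine sum_le_sum fun i hi => card_biUnion_le.trans ?_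
        have hi' := mem_range.1 hi
        calc ∑ Y ∈ powersetCard i (univ : Finset (Fin k)), ((NB cl Y).powerset).card ≤ 
              ∑ Y ∈ powersetCard i (univ : Finset (Fin k)), 2 ^ (D * j) := by
              refine sum_le_sum fun Y hY => ?_
              rw [card_powerset]
              have h3 := card_NB h Y
              have h4 := (mem_powersetCard.1 hY).2
              refine Nat.pow_le_pow_right (by norm_num) (h3.trans (Nat.mul_le_mul_left _ (by omega)))
          _ = k.choose i * 2 ^ (D * j) := by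
              rw [sum_const, card_powersetCard, card_univ, Fintype.card_fin, smul_eq_mul]
          _ ≤ k ^ (j - 1) * 2 ^ (D * j) := by
              apply Nat.mul_le_mul_right
              exact (Nat.choose_le_pow k i).trans (Nat.pow_le_pow_right hk (by omega))
    _ = j * (k ^ (j - 1) * 2 ^ (D * j)) := by rw [sum_const, card_range, smul_eq_mul]

/-- the main term -/
def AA (k V j : ℕ) : ℤ := 
  ∑ i ∈ range (j + 1), (-1) ^ i * (k.choose i : ℤ) * ((V - 1 - i).choose (j - i) : ℤ)

theorem AA_eq (k V j : ℕ) : AA k V j = ∑ X : Finset (Fin k), 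
    if X.card ≤ j then (-1) ^ X.card * ((V - 1 - X.card).choose (j - X.card) : ℤ) else 0 := by
  have h1 := Finset.sum_powerset_apply_card (x := (univ : Finset (Fin k)))
    (fun i => if i ≤ j then (-1) ^ i * ((V - 1 - i).choose (j - i) : ℤ) else 0)
  rw [powerset_univ, card_univ, Fintype.card_fin] at h1
  rw [h1]
  unfold AA
  have h2 : ∀ N, ∑ i ∈ range N, k.choose i • (if i ≤ j then (-1) ^ i * ((V - 1 - i).choose (j - i) : ℤ) else 0) = 
      ∑ i ∈ range N, if i ≤ j then (-1) ^ i * (k.choose i : ℤ) * ((V - 1 - i).choose (j - i) : ℤ) else 0 := by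
    intro N
    refine sum_congr rfl fun i _ => ?_
    split_ifs
    · rw [nsmul_eq_mul]; ring
    · simp
  rw [h2]
  have h3 : ∑ i ∈ range (j + 1), (-1) ^ i * (k.choose i : ℤ) * ((V - 1 - i).choose (j - i) : ℤ) = 
      ∑ i ∈ range (j + 1), if i ≤ j then (-1) ^ i * (k.choose i : ℤ) * ((V - 1 - i).choose (j - i) : ℤ) else 0 := by
    refine sum_congr rfl fun i hi => ?_
    rw [if_pos (by have := mem_range.1 hi; omega)]
  rw [h3]
  rcases le_total (j + 1) (k + 1) with h | h
  · refine Finset.sum_subset (range_subset_range.2 h) fun i _ hi => ?_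
    rw [if_neg (by simpa using hi)]
  · symm
    refine Finset.sum_subset (range_subset_range.2 h) fun i _ hi => ?_
    rw [mem_range, not_lt] at hi
    rw [Nat.choose_eq_zero_of_lt (by omega)]
    simp

theorem choose_le_pow' (a b M : ℕ) (h : a ≤ M) : a.choose b ≤ M ^ b := 
  (Nat.choose_le_pow a b).trans (Nat.pow_le_pow_left h b)

open Classical in
/-- the main estimate -/
theorem main_est (h : Local Γ cl D) (hk : 1 ≤ k) (hΓ : Γ.Planar) (hV : 1 ≤ Γ.verts) (M j : ℕ) (hj : 1 ≤ j) 
    (hkM : k ≤ M) (hVM : Γ.verts ≤ M) : 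
    |(∑ X : Finset (Fin k), wt Γ j X) - (-1) ^ (Γ.verts - 1) * AA k Γ.verts j| ≤ 
      ((j + 1) * (j * (2 ^ (D * j)) * (2 * (D * j + 1) ^ j)) * M ^ (j - 1) : ℕ) := by
  set V := Γ.verts with hVdef
  have hM : 1 ≤ M := hk.trans hkM
  rw [AA_eq, mul_sum, ← sum_sub_distrib]
  refine (abs_sum_le_sum_abs _ _).trans ?_
  -- pointwise
  have hpt : ∀ X : Finset (Fin k), |wt Γ j X - (-1) ^ (V - 1) * 
      (if X.card ≤ j then (-1) ^ X.card * ((V - 1 - X.card).choose (j - X.card) : ℤ) else 0)| ≤ 
      ∑ i ∈ range (j + 1), if (rk Γ X = i ∧ i < X.card) then ((2 * ((D * j + 1) * M) ^ (j - i) : ℕ) : ℤ) else 0 := by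
    intro X
    have hc := curves_pos Γ hk X
    have hcr := curves_rk Γ hΓ X
    have hrc := rk_le_card Γ X
    have hcD := card_le_rk h X
    rcases Nat.lt_or_ge (rk Γ X) X.card with hlt | hge
    · -- bad
      by_cases hrj : rk Γ X ≤ j
      · have hs : (∑ i ∈ range (j + 1), if (rk Γ X = i ∧ i < X.card) then 
            ((2 * ((D * j + 1) * M) ^ (j - i) : ℕ) : ℤ) else 0) = ((2 * ((D * j + 1) * M) ^ (j - rk Γ X) : ℕ) : ℤ) := by
          rw [Finset.sum_eq_single_of_mem (rk Γ X) (mem_range.2 (by omega))]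
          · rw [if_pos ⟨rfl, hlt⟩]
          · intro i _ hi
            rw [if_neg (fun h => hi h.1.symm)]
        rw [hs]
        have h1 : |wt Γ j X| ≤ ((((D * j + 1) * M) ^ (j - rk Γ X) : ℕ) : ℤ) := by
          unfold wt
          rw [if_pos hrj, abs_mul, abs_pow, abs_neg, abs_one, one_pow, one_mul, Nat.abs_cast]
          norm_cast
          apply choose_le_pow'
          have : X.card ≤ D * j := hcD.trans (Nat.mul_le_mul_left _ hrj)
          have h5 : D * j ≤ D * j * M := Nat.le_mul_of_pos_right _ hM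
          have h6 : Γ.curves X ≤ X.card + V := by zify; linarith [Int.natCast_nonneg (rk Γ X)]
          have h7 : (D * j + 1) * M = D * j * M + M := by ring
          omega
        have h2 : |(-1) ^ (V - 1) * (if X.card ≤ j then (-1) ^ X.card * ((V - 1 - X.card).choose (j - X.card) : ℤ) else 0)| ≤ 
            ((((D * j + 1) * M) ^ (j - rk Γ X) : ℕ) : ℤ) := by
          rw [abs_mul, abs_pow, abs_neg, abs_one, one_pow, one_mul]
          split_ifs with hXj
          · rw [abs_mul, abs_pow, abs_neg, abs_one, one_pow, one_mul, Nat.abs_cast]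
            norm_cast
            have h5 : M ≤ (D * j + 1) * M := Nat.le_mul_of_pos_left _ (Nat.succ_pos _)
            refine (choose_le_pow' _ _ ((D * j + 1) * M) (by omega)).trans ?_
            exact Nat.pow_le_pow_right (by omega) (by omega)
          · rw [abs_zero]; positivity
        refine (abs_sub _ _).trans ?_
        push_cast at h1 h2 ⊢
        linarith
      · have hXj : ¬ X.card ≤ j := by omega
        unfold wt
        rw [if_neg hrj, if_neg hXj]
        simp only [mul_zero, sub_zero, abs_zero]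
        apply Finset.sum_nonneg
        intro i _
        split_ifs
        · positivity
        · exact le_rfl
    · -- good
      have he : rk Γ X = X.card := by omega
      have hz : (wt Γ j X - (-1) ^ (V - 1) * 
        (if X.card ≤ j then (-1) ^ X.card * ((V - 1 - X.card).choose (j - X.card) : ℤ) else 0)) = 0 := by
        unfold wt
        rw [he]
        by_cases hXj : X.card ≤ j
        · rw [if_pos hXj, if_pos hXj]
          have hcv : Γ.curves X - 1 + X.card = V - 1 := by
            zify [hc, hV]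
            rw [he] at hcr
            linarith
          have hcv' : Γ.curves X - 1 = V - 1 - X.card := by omega
          rw [← hcv', ← hcv, pow_add]
          have : ((-1 : ℤ) ^ X.card) * (-1) ^ X.card = 1 := by rw [← mul_pow]; norm_num
          linear_combination (-(-1 : ℤ) ^ (Γ.curves X - 1) * ((Γ.curves X - 1).choose (j - X.card) : ℤ)) * this
        · rw [if_neg hXj, if_neg hXj]
          ring
      rw [hz, abs_zero]
      apply Finset.sum_nonneg
      intro i _
      split_ifs
      · positivity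
      · exact le_rfl
  refine (sum_le_sum fun X _ => hpt X).trans ?_
  rw [sum_comm]
  have hi : ∀ i ∈ range (j + 1), (∑ X : Finset (Fin k), if (rk Γ X = i ∧ i < X.card) then 
      ((2 * ((D * j + 1) * M) ^ (j - i) : ℕ) : ℤ) else 0) ≤ 
      ((j * (2 ^ (D * j)) * (2 * (D * j + 1) ^ j) * M ^ (j - 1) : ℕ) : ℤ) := by
    intro i hi
    have hi' : i ≤ j := by have := mem_range.1 hi; omega
    rw [← Finset.sum_filter, sum_const, nsmul_eq_mul]
    norm_cast
    have hb := bad_card h hk i
    rcases Nat.eq_zero_or_pos i with rfl | hpos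
    · rw [Nat.zero_mul] at hb
      have : (univ.filter (fun X : Finset (Fin k) => rk Γ X = 0 ∧ 0 < X.card)).card = 0 := Nat.le_zero.1 hb
      rw [this, Nat.zero_mul]
      exact Nat.zero_le _
    · calc _ ≤ (i * (k ^ (i - 1) * 2 ^ (D * i))) * (2 * ((D * j + 1) * M) ^ (j - i)) := 
            Nat.mul_le_mul_right _ hb
        _ ≤ (j * (M ^ (i - 1) * 2 ^ (D * j))) * (2 * ((D * j + 1) ^ j * M ^ (j - i))) := by
            apply Nat.mul_le_mul
            · apply Nat.mul_le_mul hi'
              apply Nat.mul_le_mul (Nat.pow_le_pow_left hkM _)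
              exact Nat.pow_le_pow_right (by norm_num) (Nat.mul_le_mul_left _ hi')
            · rw [mul_pow]
              apply Nat.mul_le_mul_left
              apply Nat.mul_le_mul_right
              exact Nat.pow_le_pow_right (Nat.succ_pos _) (by omega)
        _ = (j * (2 ^ (D * j)) * (2 * (D * j + 1) ^ j)) * (M ^ (i - 1) * M ^ (j - i)) := by ring
        _ = (j * (2 ^ (D * j)) * (2 * (D * j + 1) ^ j)) * M ^ (j - 1) := by
            rw [← pow_add]
            congr 2
            omega
  refine (sum_le_sum hi).trans ?_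
  rw [sum_const, card_range, nsmul_eq_mul]
  norm_cast
  rw [← mul_assoc]

/-- the extreme coefficient -/
theorem wt_zero (h : Local Γ cl D) (hk : 1 ≤ k) : ∑ X : Finset (Fin k), wt Γ 0 X ≠ 0 := by
  have h1 : ∑ X : Finset (Fin k), wt Γ 0 X = wt Γ 0 ∅ := by
    apply Finset.sum_eq_single_of_mem _ (mem_univ _)
    intro X _ hX
    unfold wt
    rw [if_neg]
    intro h0
    have := card_le_rk h X
    rw [Nat.le_zero.1 h0, Nat.mul_zero] at this
    exact hX (card_eq_zero.1 (Nat.le_zero.1 this))
  rw [h1]
  unfold wt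
  rw [rk_empty, if_pos le_rfl]
  simp

end Pool.Agent.Q174.Wv
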