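import Pool.Agent.H891R2.Jones.Diagram

set_option autoImplicit false

/-!
Weaving links `W(n + 1, m)`: the closure of the braid
`(σ_1 σ_2⁻¹ σ_3 σ_4⁻¹ ⋯ σ_n^{± 1}) ^ m` on `n + 1` strands, and twist numbers of the Jones
polynomial.
-/

namespace Pool.Agent.Q174.Wv

open LaurentPolynomial Pool.Agent.H891R2.Jones

/-- the four corners of a crossing of a braid which runs upwards -/
inductive Corner
  | sw | se | ne | nw
  deriving DecidableEq

instance : Fintype Corner := ⟨{.sw, .se, .ne, .nw}, by intro x; cases x <;> simp⟩

/-- The marked points of the closed braid. The crossing `(i, k)` is the one of the letter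
`σ_{i+1}^{± 1}` in the `k`-th factor `σ_1 σ_2⁻¹ ⋯ σ_n^{± 1}`; it is a crossing of the strands at
the places `i + 1` and `i + 2`. Every crossing has four marked points, its corners. -/
abbrev Pt (n m : ℕ) : Type := (Fin n × Fin m) × Corner

/-- The crossing `(i, k)`, both strands running upwards: the crossing of `σ_{i+1}` (for even `i`;
the over-strand runs from the south-west to the north-east) or of `σ_{i+1}⁻¹` (for odd `i`; the
over-strand runs from the south-east to the north-west). -/
def cross (n m : ℕ) (x : Fin n × Fin m) : Crossing (Pt n m) :=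
  if x.1.val % 2 = 0 then ⟨(x, .se), (x, .ne), (x, .nw), (x, .sw), true, false⟩
  else ⟨(x, .sw), (x, .se), (x, .ne), (x, .nw), true, true⟩

variable {n m : ℕ} [NeZero m]

/-- The corner to which the strand leaving the crossing `(i, k)` at its north-east corner runs (at the
place `i + 2`): the south-west corner of `(i + 1, k)`, if there is a column `i + 1`, and otherwise
the south-east corner of `(i, k + 1)` (with `k + 1` modulo `m`: the braid is closed). -/
def nextNE (x : Fin n × Fin m) : Pt n m :=
  if h : x.1.val + 1 < n then ((⟨x.1.val + 1, h⟩, x.2), .sw) else ((x.1, x.2 + 1), .se)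

/-- The corner to which the strand leaving the crossing `(i, k)` at its north-west corner runs (at the
place `i + 1`): the south-east corner of `(i - 1, k + 1)`, if `i > 0`, and the south-west corner of
`(0, k + 1)` for `i = 0` (with `k + 1` modulo `m`). -/
def nextNW (x : Fin n × Fin m) : Pt n m :=
  if 0 < x.1.val then ((⟨x.1.val - 1, (Nat.sub_le _ _).trans_lt x.1.isLt⟩, x.2 + 1), .se)
  else ((x.1, x.2 + 1), .sw)

/-- the numbering of the crossings -/
def idx (n m : ℕ) : Fin (n * m) ≃ Fin n × Fin m := finProdFinEquiv.symm

/-- The standard diagram of the weaving link `W(n + 1, m)`, the closure of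
`(σ_1 σ_2⁻¹ σ_3 σ_4⁻¹ ⋯ σ_n^{± 1}) ^ m`. -/
def weaving (n m : ℕ) [NeZero m] : Diagram (Pt n m) where
  arcs := (List.finRange (n * m)).flatMap
    (fun e => [((idx n m e, .ne), nextNE (idx n m e)), ((idx n m e, .nw), nextNW (idx n m e))])
  crossings := List.ofFn (fun e : Fin (n * m) => cross n m (idx n m e))

/-- the highest exponent of `A` in `f` -/
noncomputable def hi (f : ℤ[T;T⁻¹]) : ℤ := sSup {j | f.coeff j ≠ 0}

/-- the lowest exponent of `A` in `f` -/
noncomputable def lo (f : ℤ[T;T⁻¹]) : ℤ := sInf {j | f.coeff j ≠ 0}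

/-- The `j`-th twist number of a Laurent polynomial in `A`. If `f` is the normalised Kauffman bracket,
the Jones polynomial is `V(t) = f` for `t = A⁻⁴`, that is, `V = ∑ λ_i t ^ i` with
`λ_i = f.coeff (-4 i)`; so the lowest and the highest exponents `l` and `h` of `V` correspond to
`hi f = -4 l` and `lo f = -4 h`, and the twist number is `|λ_{l + j}| + |λ_{h - j}|`. -/
noncomputable def twist (f : ℤ[T;T⁻¹]) (j : ℕ) : ℤ :=
  |f.coeff (hi f - 4 * j)| + |f.coeff (lo f + 4 * j)|

end Pool.Agent.Q174.Wv
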