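import Pool.Agent.Q174.Wv.Plan

set_option autoImplicit false

/-! Sets of crossings in far apart rows are independent and closed in the Tait graph. -/

namespace Pool.Agent.Q174.Wv

open Finset

variable {n m : ℕ} [NeZero m]

/-- the crossing `y` touches the vertex `v` -/
def tch (p : ℕ) (y v : Fin n × Fin m) : Prop := e1 p y = .inl v ∨ e2 p y = .inl v

theorem ends_cases (hn : 2 ≤ n) (p i : ℕ) (hi : i < n) (k : Fin m) :
    (i % 2 = p ∧ e1 p (⟨i, hi⟩, k) = .inl (⟨i, hi⟩, k - 1) ∧ e2 p (⟨i, hi⟩, k) = .inl (⟨i, hi⟩, k)) ∨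
    (i % 2 ≠ p ∧ ∃ (h1 : 0 < i) (h2 : i + 1 < n), 
      e1 p (⟨i, hi⟩, k) = .inl (⟨i - 1, by omega⟩, k) ∧ e2 p (⟨i, hi⟩, k) = .inl (⟨i + 1, h2⟩, k - 1)) ∨
    (i % 2 ≠ p ∧ i = 0 ∧ e1 p (⟨i, hi⟩, k) = .inr false ∧ e2 p (⟨i, hi⟩, k) = .inl (⟨1, by omega⟩, k - 1)) ∨
    (i % 2 ≠ p ∧ 0 < i ∧ i + 1 = n ∧ e1 p (⟨i, hi⟩, k) = .inl (⟨i - 1, by omega⟩, k) ∧ 
      e2 p (⟨i, hi⟩, k) = .inr true) := by
  unfold e1 e2
  by_cases h : i % 2 = p
  · left; simp [h]
  · right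
    by_cases h1 : 0 < i
    · by_cases h2 : i + 1 < n
      · left; simp [h, h1, h2]
      · right; right
        refine ⟨h, h1, by omega, ?_, ?_⟩ <;> simp [h, h1, h2]
    · right; left
      have h0 : i = 0 := by omega
      subst h0
      have h2 : 0 + 1 < n := by omega
      simp [h, show 1 < n by omega]

theorem sub_one_ne (hm : 3 ≤ m) (k : Fin m) : k - 1 ≠ k := by
  intro h
  have h1 : (1 : Fin m) = 0 := by
    have := congrArg (fun x => k - x) h
    simpa using this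
  have h2 := congrArg Fin.val h1
  rw [Fin.val_zero, Fin.val_one', Nat.mod_eq_of_lt (by omega)] at h2
  omega

theorem sub_two_ne (hm : 3 ≤ m) (k : Fin m) : k - 1 - 1 ≠ k := by
  intro h
  have h0 : k - (1 + 1) = k := by rw [← h]; simp [sub_sub] at h ⊢; exact h
  have h1 : (1 + 1 : Fin m) = 0 := by
    have := congrArg (fun x => k - x) h0
    simpa using this
  have h2 := congrArg Fin.val h1
  rw [Fin.val_zero, Fin.val_add, Fin.val_one', Nat.mod_eq_of_lt (show 1 < m by omega), 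
    Nat.mod_eq_of_lt (by omega)] at h2
  omega

theorem tch_row (hn : 2 ≤ n) (p : ℕ) {y v : Fin n × Fin m} (h : tch p y v) : y.2 = v.2 ∨ y.2 = v.2 + 1 := by
  obtain ⟨⟨i, hi⟩, k⟩ := y
  unfold tch at h
  rcases ends_cases hn p i hi k with ⟨_, h1, h2⟩ | ⟨_, _, _, h1, h2⟩ | ⟨_, _, h1, h2⟩ | ⟨_, _, _, h1, h2⟩ <;>
    rw [h1, h2] at h <;> rcases h with h | h <;> (try simp at h) <;> (try subst h) <;> simp

theorem e1_ne_e2 (hn : 2 ≤ n) (hm : 3 ≤ m) (p : ℕ) (y : Fin n × Fin m) : e1 p y ≠ e2 p y := by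
  obtain ⟨⟨i, hi⟩, k⟩ := y
  rcases ends_cases hn p i hi k with ⟨_, h1, h2⟩ | ⟨_, _, _, h1, h2⟩ | ⟨_, _, h1, h2⟩ | ⟨_, _, _, h1, h2⟩ <;>
    rw [h1, h2] <;> simp <;> omega

theorem ends_inj (hn : 2 ≤ n) (p : ℕ) {y e : Fin n × Fin m} (h : e1 p y = e1 p e) 
    (h' : e2 p y = e2 p e) : y = e := by
  obtain ⟨⟨i, hi⟩, k⟩ := y
  obtain ⟨⟨j, hj⟩, l⟩ := e
  rcases ends_cases hn p i hi k with ⟨_, h1, h2⟩ | ⟨_, _, _, h1, h2⟩ | ⟨_, _, h1, h2⟩ | ⟨_, _, _, h1, h2⟩ <;>
    rcases ends_cases hn p j hj l with ⟨_, h3, h4⟩ | ⟨_, _, _, h3, h4⟩ | ⟨_, _, h3, h4⟩ | ⟨_, _, _, h3, h4⟩ <;>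
      rw [h1, h3] at h <;> rw [h2, h4] at h' <;> simp at h h' ⊢ <;>
        first
        | (refine ⟨by omega, ?_⟩; first | exact h.2 | exact h'.2 | exact h' | exact h)
        | omega

theorem ends_nosw (hn : 2 ≤ n) (hm : 3 ≤ m) (p : ℕ) {y e : Fin n × Fin m} (h : e1 p y = e2 p e) 
    (h' : e2 p y = e1 p e) : False := by
  obtain ⟨⟨i, hi⟩, k⟩ := y
  obtain ⟨⟨j, hj⟩, l⟩ := e
  rcases ends_cases hn p i hi k with ⟨_, h1, h2⟩ | ⟨_, _, _, h1, h2⟩ | ⟨_, _, h1, h2⟩ | ⟨_, _, _, h1, h2⟩ <;>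
    rcases ends_cases hn p j hj l with ⟨_, h3, h4⟩ | ⟨_, _, _, h3, h4⟩ | ⟨_, _, h3, h4⟩ | ⟨_, _, _, h3, h4⟩ <;>
      rw [h1, h4] at h <;> rw [h2, h3] at h' <;> simp at h h' <;> 
        first
        | omega
        | (apply sub_two_ne hm k; rw [h.2]; exact h'.2.symm)

/-- two crossings with two common ends -/
theorem tch_two (hn : 2 ≤ n) (hm : 3 ≤ m) (p : ℕ) {y e u v : Fin n × Fin m} (huv : u ≠ v) 
    (h1 : tch p y u) (h2 : tch p y v) (h3 : tch p e u) (h4 : tch p e v) : y = e := by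
  have key : ∀ z, tch p z u → tch p z v → (e1 p z = .inl u ∧ e2 p z = .inl v) ∨ 
      (e1 p z = .inl v ∧ e2 p z = .inl u) := by
    rintro z (h | h) (h' | h')
    · rw [h] at h'; exact absurd (Sum.inl_injective h') huv
    · exact Or.inl ⟨h, h'⟩
    · exact Or.inr ⟨h', h⟩
    · rw [h] at h'; exact absurd (Sum.inl_injective h') huv
  rcases key y h1 h2 with ⟨a, b⟩ | ⟨a, b⟩ <;> rcases key e h3 h4 with ⟨c, d⟩ | ⟨c, d⟩
  · exact ends_inj hn p (a.trans c.symm) (b.trans d.symm)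
  · exact (ends_nosw hn hm p (a.trans d.symm) (b.trans c.symm)).elim
  · exact (ends_nosw hn hm p (a.trans d.symm) (b.trans c.symm)).elim
  · exact ends_inj hn p (a.trans c.symm) (b.trans d.symm)

/-- small rows -/
def Dm (s : Fin m) : Prop := s = 0 ∨ s = 1 ∨ s = 1 + 1

/-- the crossings `x` and `y` are in rows at distance at most two -/
def close (x y : Fin n × Fin m) : Prop := ∃ s t : Fin m, Dm s ∧ Dm t ∧ x.2 + s = y.2 + t

theorem close_symm {x y : Fin n × Fin m} (h : close x y) : close y x := by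
  obtain ⟨s, t, hs, ht, h⟩ := h
  exact ⟨t, s, ht, hs, h.symm⟩

theorem close_refl (x : Fin n × Fin m) : close x x := ⟨0, 0, Or.inl rfl, Or.inl rfl, rfl⟩

/-- one step -/
def near (x y : Fin n × Fin m) : Prop := ∃ s t : Fin m, (s = 0 ∨ s = 1) ∧ (t = 0 ∨ t = 1) ∧ x.2 + s = y.2 + t

theorem near_of_tch (hn : 2 ≤ n) (p : ℕ) {x y v : Fin n × Fin m} (hx : tch p x v) (hy : tch p y v) : 
    near x y := by
  rcases tch_row hn p hx with h | h <;> rcases tch_row hn p hy with h' | h'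
  · exact ⟨0, 0, Or.inl rfl, Or.inl rfl, by rw [h, h']⟩
  · exact ⟨1, 0, Or.inr rfl, Or.inl rfl, by rw [h, h', add_zero]⟩
  · exact ⟨0, 1, Or.inl rfl, Or.inr rfl, by rw [h, h', add_zero]⟩
  · exact ⟨0, 0, Or.inl rfl, Or.inl rfl, by rw [h, h']⟩

theorem close_of_near {x y z : Fin n × Fin m} (h : near x y) (h' : near y z) : close x z := by
  obtain ⟨s, t, hs, ht, h⟩ := h
  obtain ⟨s', t', hs', ht', h'⟩ := h'
  refine ⟨s + s', t' + t, ?_, ?_, ?_⟩
  · rcases hs with rfl | rfl <;> rcases hs' with rfl | rfl <;> simp [Dm]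
  · rcases ht with rfl | rfl <;> rcases ht' with rfl | rfl <;> simp [Dm]
  · calc x.2 + (s + s') = (x.2 + s) + s' := by abel
      _ = (y.2 + t) + s' := by rw [h]
      _ = (y.2 + s') + t := by abel
      _ = (z.2 + t') + t := by rw [h']
      _ = z.2 + (t' + t) := by abel

theorem close_of_near1 {x y : Fin n × Fin m} (h : near x y) : close x y :=
  close_of_near h ⟨0, 0, Or.inl rfl, Or.inl rfl, rfl⟩

open Classical in
/-- the invariant -/
noncomputable def FF (p : ℕ) (Y : Finset (Fin n × Fin m)) (w : WW n m) : WW n m ⊕ (Fin n × Fin m) :=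
  match w with
  | .inr b => .inl (.inr b)
  | .inl v => if h : ∃ y ∈ Y, tch p y v then
      (if e1 p h.choose = .inr false then .inl (.inr false) else
        if e2 p h.choose = .inr true then .inl (.inr true) else .inr h.choose)
      else .inl (.inl v)

/-- far apart rows -/
def Spread (Y : Finset (Fin n × Fin m)) : Prop := ∀ x ∈ Y, ∀ y ∈ Y, close x y → x = y

theorem FF_of (hn : 2 ≤ n) (p : ℕ) {Y : Finset (Fin n × Fin m)} (hY : Spread Y) {y v : Fin n × Fin m} 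
    (hy : y ∈ Y) (h : tch p y v) : FF p Y (.inl v) = if e1 p y = .inr false then .inl (.inr false) else
        if e2 p y = .inr true then .inl (.inr true) else .inr y := by
  have h0 : ∃ y ∈ Y, tch p y v := ⟨y, hy, h⟩
  have h1 : h0.choose = y := 
    hY _ h0.choose_spec.1 _ hy (close_of_near1 (near_of_tch hn p h0.choose_spec.2 h))
  refine (dif_pos h0).trans ?_
  rw [h1]

theorem FF_not (p : ℕ) {Y : Finset (Fin n × Fin m)} {v : Fin n × Fin m} 
    (h : ¬ ∃ y ∈ Y, tch p y v) : FF p Y (.inl v) = .inl (.inl v) := dif_neg h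

theorem FF_inr (p : ℕ) (Y : Finset (Fin n × Fin m)) (b : Bool) : FF p Y (.inr b) = .inl (.inr b) := rfl

/-- the kinds of crossings -/
theorem kinds (hn : 2 ≤ n) (p : ℕ) (y : Fin n × Fin m) : 
    (∃ u v, e1 p y = .inl u ∧ e2 p y = .inl v) ∨ (∃ v, e1 p y = .inr false ∧ e2 p y = .inl v) ∨ 
      (∃ v, e1 p y = .inl v ∧ e2 p y = .inr true) := by
  obtain ⟨⟨i, hi⟩, k⟩ := y
  rcases ends_cases hn p i hi k with ⟨_, h1, h2⟩ | ⟨_, _, _, h1, h2⟩ | ⟨_, _, h1, h2⟩ | ⟨_, _, _, h1, h2⟩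
  · left; exact ⟨_, _, h1, h2⟩
  · left; exact ⟨_, _, h1, h2⟩
  · right; left; exact ⟨_, h1, h2⟩
  · right; right; exact ⟨_, h1, h2⟩

theorem FF_same (hn : 2 ≤ n) (p : ℕ) {Y : Finset (Fin n × Fin m)} (hY : Spread Y) {y : Fin n × Fin m} 
    (hy : y ∈ Y) : FF p Y (e1 p y) = FF p Y (e2 p y) := by
  rcases kinds hn p y with ⟨u, v, h1, h2⟩ | ⟨v, h1, h2⟩ | ⟨v, h1, h2⟩
  · rw [h1, h2, FF_of hn p hY hy (Or.inl h1), FF_of hn p hY hy (Or.inr h2)]
  · rw [h1, h2, FF_of hn p hY hy (Or.inr h2), FF_inr, if_pos h1]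
  · rw [h1, h2, FF_of hn p hY hy (Or.inl h1), FF_inr, if_neg (by rw [h1]; simp), if_pos h2]

theorem FF_diff (hn : 2 ≤ n) (hm : 3 ≤ m) (p : ℕ) {Y : Finset (Fin n × Fin m)} (hY : Spread Y) 
    {e : Fin n × Fin m} (he : e ∉ Y) : FF p Y (e1 p e) ≠ FF p Y (e2 p e) := by
  intro hF
  rcases kinds hn p e with ⟨u, v, h1, h2⟩ | ⟨v, h1, h2⟩ | ⟨v, h1, h2⟩
  · have huv : u ≠ v := by
      rintro rfl
      exact e1_ne_e2 hn hm p e (h1.trans h2.symm)
    have tu : tch p e u := Or.inl h1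
    have tv : tch p e v := Or.inr h2
    rw [h1, h2] at hF
    by_cases hu : ∃ y ∈ Y, tch p y u
    · obtain ⟨y, hy, hyu⟩ := hu
      by_cases hv : ∃ y ∈ Y, tch p y v
      · obtain ⟨z, hz, hzv⟩ := hv
        have hyz : y = z := hY _ hy _ hz (close_of_near (near_of_tch hn p hyu tu) (near_of_tch hn p tv hzv))
        subst hyz
        exact he (tch_two hn hm p huv hyu hzv tu tv ▸ hy)
      · rw [FF_of hn p hY hy hyu, FF_not p hv] at hF
        split_ifs at hF <;> simp at hF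
    · by_cases hv : ∃ y ∈ Y, tch p y v
      · obtain ⟨z, hz, hzv⟩ := hv
        rw [FF_of hn p hY hz hzv, FF_not p hu] at hF
        split_ifs at hF <;> simp at hF
      · rw [FF_not p hu, FF_not p hv] at hF
        exact huv (Sum.inl_injective (Sum.inl_injective hF))
  · rw [h1, h2, FF_inr] at hF
    by_cases hv : ∃ y ∈ Y, tch p y v
    · obtain ⟨y, hy, hyv⟩ := hv
      rw [FF_of hn p hY hy hyv] at hF
      split_ifs at hF with h3 h4
      · rcases kinds hn p y with ⟨a, b, h5, h6⟩ | ⟨a, h5, h6⟩ | ⟨a, h5, h6⟩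
        · rw [h5] at h3; simp at h3
        · have : a = v := by
            rcases hyv with h | h
            · rw [h5] at h; simp at h
            · rw [h6] at h; exact Sum.inl_injective h
          subst this
          exact he (ends_inj hn p (h5.trans h1.symm) (h6.trans h2.symm) ▸ hy)
        · rw [h5] at h3; simp at h3
      · simp at hF
    · rw [FF_not p hv] at hF
      simp at hF
  · rw [h1, h2, FF_inr] at hF
    by_cases hv : ∃ y ∈ Y, tch p y v
    · obtain ⟨y, hy, hyv⟩ := hv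
      rw [FF_of hn p hY hy hyv] at hF
      split_ifs at hF with h3 h4
      · simp at hF
      · rcases kinds hn p y with ⟨a, b, h5, h6⟩ | ⟨a, h5, h6⟩ | ⟨a, h5, h6⟩
        · rw [h6] at h4; simp at h4
        · rw [h6] at h4; simp at h4
        · have : a = v := by
            rcases hyv with h | h
            · rw [h5] at h; exact Sum.inl_injective h
            · rw [h6] at h; simp at h
          subst this
          exact he (ends_inj hn p (h5.trans h1.symm) (h6.trans h2.symm) ▸ hy)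
    · rw [FF_not p hv] at hF
      simp at hF

end Pool.Agent.Q174.Wv
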