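import Pool.Agent.Q174.Wv.Ind
import Pool.Agent.Q174.Wv.Count

set_option autoImplicit false

/-! Locality of the Tait graph of the weaving diagram and of its dual. -/

namespace Pool.Agent.Q174.Wv

open Pool.Agent.H891R2.Jones Pool.Agent.H891R2.MT Finset

variable {n m : ℕ} [NeZero m]

theorem close_bound (x : Fin n × Fin m) (N : Finset (Fin n × Fin m)) (h : ∀ y ∈ N, close x y) : 
    N.card ≤ 9 * n := by
  classical
  let f : Fin 3 → Fin m := ![0, 1, 1 + 1]
  have hf : ∀ s, Dm s → ∃ a, f a = s := by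
    rintro s (rfl | rfl | rfl)
    · exact ⟨0, rfl⟩
    · exact ⟨1, rfl⟩
    · exact ⟨2, rfl⟩
  have hsub : N ⊆ (univ : Finset (Fin n × Fin 3 × Fin 3)).image 
      (fun z => (z.1, x.2 + f z.2.1 - f z.2.2)) := by
    intro y hy
    obtain ⟨s, t, hs, ht, hst⟩ := h y hy
    obtain ⟨a, ha⟩ := hf s hs
    obtain ⟨b, hb⟩ := hf t ht
    rw [mem_image]
    refine ⟨(y.1, a, b), mem_univ _, ?_⟩
    apply Prod.ext
    · rfl
    · show x.2 + f a - f b = y.2
      rw [ha, hb, hst]
      simp
  refine (card_le_card hsub).trans (card_image_le.trans ?_)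
  rw [card_univ, Fintype.card_prod, Fintype.card_prod, Fintype.card_fin, Fintype.card_fin]
  omega

/-- closeness of the numbers of crossings -/
def clI (n m : ℕ) [NeZero m] (x y : Fin (n * m)) : Prop := close (idx n m x) (idx n m y)

theorem phi_ends (p : ℕ) (x : Fin n × Fin m) : (phi p (x, false) = e1 p x ∧ phi p (x, true) = e2 p x) ∨ 
    (phi p (x, false) = e2 p x ∧ phi p (x, true) = e1 p x) := by
  unfold phi
  by_cases h : p = 1 ∧ x.1.val % 2 = 1
  · right
    simp [h]
  · left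
    constructor
    · rw [if_neg h]; simp
    · rw [if_neg h]; simp

theorem indep_of (hn : 2 ≤ n) (hm : 3 ≤ m) (Γ : Ribbon (n * m)) (p : ℕ) 
    (hrot : ∀ d, phi p (didx n m (Γ.rot d)) = phi p (didx n m d)) (Y : Finset (Fin (n * m)))
    (hY : ∀ x ∈ Y, ∀ y ∈ Y, clI n m x y → x = y) (e : Fin (n * m)) (he : e ∉ Y) : 
    Γ.comps Y = Γ.comps (insert e Y) + 1 := by
  rcases T3a.comps_insert Γ Y e with ⟨h, _⟩ | ⟨_, h⟩
  · exfalso
    set Y' : Finset (Fin n × Fin m) := Y.map (idx n m).toEmbedding with hYdef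
    have hmem : ∀ x, idx n m x ∈ Y' ↔ x ∈ Y := by
      intro x
      rw [hYdef, mem_map_equiv, Equiv.symm_apply_apply]
    have hY' : Spread Y' := by
      intro x hx y hy hxy
      obtain ⟨a, rfl⟩ := (idx n m).surjective x
      obtain ⟨b, rfl⟩ := (idx n m).surjective y
      rw [hY a ((hmem a).1 hx) b ((hmem b).1 hy) hxy]
    have he' : idx n m e ∉ Y' := fun h => he ((hmem e).1 h)
    have hsame : ∀ y ∈ Y', FF p Y' (phi p (y, false)) = FF p Y' (phi p (y, true)) := by
      intro y hy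
      rcases phi_ends p y with ⟨h1, h2⟩ | ⟨h1, h2⟩
      · rw [h1, h2]; exact FF_same hn p hY' hy
      · rw [h1, h2]; exact (FF_same hn p hY' hy).symm
    have hl : ∀ x y, (Γ.rot x = y ∨ (x.1 ∈ Y ∧ y = Pool.Agent.H891R2.MT.flip x)) → 
        FF p Y' (phi p (didx n m x)) = FF p Y' (phi p (didx n m y)) := by
      rintro ⟨x, b⟩ y (rfl | ⟨h1, rfl⟩)
      · rw [hrot]
      · have h2 := hsame _ ((hmem x).2 h1)
        cases b
        · exact h2
        · exact h2.symm
    have h3 : FF p Y' (phi p (idx n m e, false)) = FF p Y' (phi p (idx n m e, true)) := 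
      congrArg (Quot.lift (fun d => FF p Y' (phi p (didx n m d))) hl) h
    rcases phi_ends p (idx n m e) with ⟨h1, h2⟩ | ⟨h1, h2⟩
    · rw [h1, h2] at h3
      exact FF_diff hn hm p hY' he' h3
    · rw [h1, h2] at h3
      exact FF_diff hn hm p hY' he' h3.symm
  · exact h

theorem local_of (hn : 2 ≤ n) (hm : 3 ≤ m) (Γ : Ribbon (n * m)) (p : ℕ) 
    (hrot : ∀ d, phi p (didx n m (Γ.rot d)) = phi p (didx n m d)) : Local Γ (clI n m) (9 * n) where
  refl x := close_refl _
  symm x y h := close_symm h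
  bound x N h := by
    rw [← card_map (idx n m).toEmbedding]
    apply close_bound (idx n m x)
    intro y hy
    obtain ⟨a, rfl⟩ := (idx n m).surjective y
    rw [mem_map_equiv, Equiv.symm_apply_apply] at hy
    exact h a hy
  indep Y hY e he := indep_of hn hm Γ p hrot Y hY e he

theorem local_G (hn : 2 ≤ n) (hm : 3 ≤ m) : Local (G n m) (clI n m) (9 * n) := 
  local_of hn hm (G n m) 0 (fun d => by rw [G_rot, Equiv.apply_symm_apply, phi0_rf])

theorem local_dual (hn : 2 ≤ n) (hm : 3 ≤ m) : 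
    Local (Pool.Agent.H891R2.DS.stateGraph (G n m) Finset.univ) (clI n m) (9 * n) := 
  local_of hn hm _ 1 (fun d => by 
    rw [dual_rot, didx_flip, G_rot, Equiv.apply_symm_apply, phi1_rf])

end Pool.Agent.Q174.Wv
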