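import Pool.Agent.Q174.Wv.Rib

set_option autoImplicit false

/-! The circles of the states of the weaving diagram are the curves of its ribbon graph. -/

namespace Pool.Agent.Q174.Wv

open LaurentPolynomial Pool.Agent.H891R2.Jones Pool.Agent.H891R2.MT Finset

variable {n m : ℕ} [NeZero m]

theorem mem_arcs (p q : Pt n m) : (p, q) ∈ (weaving n m).arcs ↔
    ∃ x, (p = (x, .ne) ∧ q = nextNE x) ∨ (p = (x, .nw) ∧ q = nextNW x) := by
  unfold weaving
  simp only [List.mem_flatMap, List.mem_finRange, true_and, List.mem_cons, Prod.mk.injEq,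
    List.not_mem_nil, or_false]
  constructor
  · rintro ⟨e, h⟩
    exact ⟨idx n m e, h⟩
  · rintro ⟨x, h⟩
    refine ⟨(idx n m).symm x, ?_⟩
    simpa using h

theorem len : (weaving n m).crossings.length = n * m := by simp [weaving]

theorem getElem_cross (i : Fin (weaving n m).crossings.length) :
    (weaving n m).crossings[i] = cross n m (idx n m (Fin.cast len i)) := by
  have h : ∀ (f : Fin (n * m) → Crossing (Pt n m)) (j : ℕ) (hj : j < (List.ofFn f).length), 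
      (List.ofFn f)[j] = f ⟨j, by simpa using hj⟩ := fun f j hj => List.getElem_ofFn ..
  exact h _ i.val i.isLt

omit [NeZero m] in
theorem cross_e (i : ℕ) (hi : i < n) (k : Fin m) (h : i % 2 = 0) : cross n m (⟨i, hi⟩, k) = 
    ⟨((⟨i, hi⟩, k), .se), ((⟨i, hi⟩, k), .ne), ((⟨i, hi⟩, k), .nw), ((⟨i, hi⟩, k), .sw), true, false⟩ := by
  unfold cross; rw [if_pos h]

omit [NeZero m] in
theorem cross_o (i : ℕ) (hi : i < n) (k : Fin m) (h : i % 2 = 1) : cross n m (⟨i, hi⟩, k) = 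
    ⟨((⟨i, hi⟩, k), .sw), ((⟨i, hi⟩, k), .se), ((⟨i, hi⟩, k), .ne), ((⟨i, hi⟩, k), .nw), true, true⟩ := by
  unfold cross; rw [if_neg (by simp only; omega)]

section
variable {i : ℕ} {hi : i < n} {k : Fin m}

theorem psi_e (h : i % 2 = 0) : 
    (psi (n := n) (m := m) ((⟨i, hi⟩, k), .sw) = (((idx n m).symm (⟨i, hi⟩, k), false), true)) ∧ 
    (psi (n := n) (m := m) ((⟨i, hi⟩, k), .se) = (((idx n m).symm (⟨i, hi⟩, k), false), false)) ∧ 
    (psi (n := n) (m := m) ((⟨i, hi⟩, k), .ne) = (((idx n m).symm (⟨i, hi⟩, k), true), true)) ∧ 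
    (psi (n := n) (m := m) ((⟨i, hi⟩, k), .nw) = (((idx n m).symm (⟨i, hi⟩, k), true), false)) := by
  unfold psi; simp [h]

theorem psi_o (h : i % 2 = 1) : 
    (psi (n := n) (m := m) ((⟨i, hi⟩, k), .sw) = (((idx n m).symm (⟨i, hi⟩, k), false), false)) ∧ 
    (psi (n := n) (m := m) ((⟨i, hi⟩, k), .se) = (((idx n m).symm (⟨i, hi⟩, k), true), true)) ∧ 
    (psi (n := n) (m := m) ((⟨i, hi⟩, k), .ne) = (((idx n m).symm (⟨i, hi⟩, k), true), false)) ∧ 
    (psi (n := n) (m := m) ((⟨i, hi⟩, k), .nw) = (((idx n m).symm (⟨i, hi⟩, k), false), true)) := by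
  unfold psi; simp [h]

theorem nextNE1 (h : i + 1 < n) : nextNE ((⟨i, hi⟩ : Fin n), k) = ((⟨i + 1, h⟩, k), .sw) := by
  unfold nextNE; rw [dif_pos h]
theorem nextNE2 (h : ¬ i + 1 < n) : nextNE ((⟨i, hi⟩ : Fin n), k) = ((⟨i, hi⟩, k + 1), .se) := by
  unfold nextNE; rw [dif_neg h]
theorem nextNW1 (h : 0 < i) : nextNW ((⟨i, hi⟩ : Fin n), k) = ((⟨i - 1, by omega⟩, k + 1), .se) := by
  unfold nextNW; rw [if_pos h]
theorem nextNW2 (h : ¬ 0 < i) : nextNW ((⟨i, hi⟩ : Fin n), k) = ((⟨i, hi⟩, k + 1), .sw) := by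
  unfold nextNW; rw [if_neg h]
end

theorem G_rot' (x : Fin n × Fin m) (b : Bool) :
    (G n m).rot ((idx n m).symm x, b) = ((idx n m).symm (rf (x, b)).1, (rf (x, b)).2) := by
  rw [G_rot]
  have : didx n m ((idx n m).symm x, b) = (x, b) := by simp [didx]
  rw [this]
  rfl

theorem arcNE (x : Fin n × Fin m) : ∃ d,
    (psi (x, .ne) = (d, true) ∧ psi (nextNE x) = ((G n m).rot d, false)) ∨
    (psi (nextNE x) = (d, true) ∧ psi (x, .ne) = ((G n m).rot d, false)) := by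
  obtain ⟨⟨i, hi⟩, k⟩ := x
  rcases Nat.mod_two_eq_zero_or_one i with h | h <;> by_cases h1 : i + 1 < n
  · refine ⟨((idx n m).symm (⟨i, hi⟩, k), true), Or.inl ⟨(psi_e h).2.2.1, ?_⟩⟩
    rw [G_rot', rf_e1 h h1, nextNE1 h1, (psi_o (by omega)).1]
  · refine ⟨((idx n m).symm (⟨i, hi⟩, k), true), Or.inl ⟨(psi_e h).2.2.1, ?_⟩⟩
    rw [G_rot', rf_e1' h h1, nextNE2 h1, (psi_e h).2.1]
  · refine ⟨((idx n m).symm (⟨i + 1, h1⟩, k), false), Or.inr ⟨?_, ?_⟩⟩
    · rw [nextNE1 h1, (psi_e (by omega)).1]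
    · rw [G_rot', rf_e0 (by omega) (by omega), (psi_o h).2.2.1]
      simp
  · refine ⟨((idx n m).symm (⟨i, hi⟩, k + 1), true), Or.inr ⟨?_, ?_⟩⟩
    · rw [nextNE2 h1, (psi_o h).2.1]
    · rw [G_rot', rf_o1' h h1, (psi_o h).2.2.1]
      simp

theorem arcNW (x : Fin n × Fin m) : ∃ d,
    (psi (x, .nw) = (d, true) ∧ psi (nextNW x) = ((G n m).rot d, false)) ∨
    (psi (nextNW x) = (d, true) ∧ psi (x, .nw) = ((G n m).rot d, false)) := by
  obtain ⟨⟨i, hi⟩, k⟩ := x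
  rcases Nat.mod_two_eq_zero_or_one i with h | h
  · by_cases h2 : 0 < i
    · refine ⟨((idx n m).symm (⟨i - 1, by omega⟩, k + 1), true), Or.inr ⟨?_, ?_⟩⟩
      · rw [nextNW1 h2, (psi_o (by omega)).2.1]
      · rw [G_rot', rf_o1 (by omega) (by omega), (psi_e h).2.2.2]
        simp [Nat.sub_add_cancel h2]
    · refine ⟨((idx n m).symm (⟨i, hi⟩, k + 1), false), Or.inr ⟨?_, ?_⟩⟩
      · rw [nextNW2 h2, (psi_e h).1]
      · rw [G_rot', rf_e0' h h2, (psi_e h).2.2.2]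
        simp
  · refine ⟨((idx n m).symm (⟨i, hi⟩, k), false), Or.inl ⟨(psi_o h).2.2.2, ?_⟩⟩
    rw [G_rot', rf_o0 h, nextNW1 (by omega), (psi_e (by omega)).2.1]

/-- every pair of corners joined at a vertex of the ribbon graph is an arc -/
theorem arc_conv (d : Fin (n * m) × Bool) :
    (psi' (d, true), psi' ((G n m).rot d, false)) ∈ (weaving n m).arcs ∨
    (psi' ((G n m).rot d, false), psi' (d, true)) ∈ (weaving n m).arcs := by
  obtain ⟨e, b⟩ := d
  obtain ⟨⟨⟨i, hi⟩, k⟩, rfl⟩ := (idx n m).symm.surjective e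
  have key : ∀ p q : Pt n m, (p, q) ∈ (weaving n m).arcs → 
      psi p = (((idx n m).symm (⟨i, hi⟩, k), b), true) → 
      psi q = ((G n m).rot ((idx n m).symm (⟨i, hi⟩, k), b), false) → 
      (psi' (((idx n m).symm (⟨i, hi⟩, k), b), true), 
        psi' ((G n m).rot ((idx n m).symm (⟨i, hi⟩, k), b), false)) ∈ (weaving n m).arcs := by
    intro p q h h1 h2
    rw [← h1, ← h2, psi'_psi, psi'_psi]
    exact h
  have key' : ∀ p q : Pt n m, (p, q) ∈ (weaving n m).arcs → 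
      psi q = (((idx n m).symm (⟨i, hi⟩, k), b), true) → 
      psi p = ((G n m).rot ((idx n m).symm (⟨i, hi⟩, k), b), false) → 
      (psi' ((G n m).rot ((idx n m).symm (⟨i, hi⟩, k), b), false), 
        psi' (((idx n m).symm (⟨i, hi⟩, k), b), true)) ∈ (weaving n m).arcs := by
    intro p q h h1 h2
    rw [← h1, ← h2, psi'_psi, psi'_psi]
    exact h
  have aNE : ∀ x : Fin n × Fin m, ((x, .ne), nextNE x) ∈ (weaving n m).arcs := fun x => 
    (mem_arcs _ _).2 ⟨x, Or.inl ⟨rfl, rfl⟩⟩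
  have aNW : ∀ x : Fin n × Fin m, ((x, .nw), nextNW x) ∈ (weaving n m).arcs := fun x => 
    (mem_arcs _ _).2 ⟨x, Or.inr ⟨rfl, rfl⟩⟩
  rcases b with _ | _ <;> rcases Nat.mod_two_eq_zero_or_one i with h | h
  · right
    by_cases h2 : 0 < i
    · refine key' _ _ (aNE (⟨i - 1, by omega⟩, k)) ?_ ?_
      · rw [nextNE1 (by omega)]
        simp only [Nat.sub_add_cancel h2]
        rw [(psi_e h).1]
      · rw [G_rot', rf_e0 h h2, (psi_o (by omega)).2.2.1]
    · refine key' _ _ (aNW (⟨i, hi⟩, k - 1)) ?_ ?_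
      · rw [nextNW2 h2, (psi_e h).1]
        simp
      · rw [G_rot', rf_e0' h h2, (psi_e h).2.2.2]
  · left
    refine key _ _ (aNW (⟨i, hi⟩, k)) ?_ ?_
    · rw [(psi_o h).2.2.2]
    · rw [G_rot', rf_o0 h, nextNW1 (by omega), (psi_e (by omega)).2.1]
  · left
    refine key _ _ (aNE (⟨i, hi⟩, k)) ?_ ?_
    · rw [(psi_e h).2.2.1]
    · by_cases h1 : i + 1 < n
      · rw [G_rot', rf_e1 h h1, nextNE1 h1, (psi_o (by omega)).1]
      · rw [G_rot', rf_e1' h h1, nextNE2 h1, (psi_e h).2.1]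
  · right
    by_cases h1 : i + 1 < n
    · refine key' _ _ (aNW (⟨i + 1, h1⟩, k - 1)) ?_ ?_
      · rw [nextNW1 (by omega)]
        simp only [Nat.add_sub_cancel, sub_add_cancel]
        rw [(psi_o h).2.1]
      · rw [G_rot', rf_o1 h h1, (psi_e (by omega)).2.2.2]
    · refine key' _ _ (aNE (⟨i, hi⟩, k - 1)) ?_ ?_
      · rw [nextNE2 h1, (psi_o h).2.1]
        simp
      · rw [G_rot', rf_o1' h h1, (psi_o h).2.2.1]

/-- the set of the `A`-smoothed crossings -/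
def St (s : Fin (weaving n m).crossings.length → Bool) : Finset (Fin (n * m)) :=
  Finset.univ.filter (fun e => s (Fin.cast len.symm e) = true)

theorem mem_St (s : Fin (weaving n m).crossings.length → Bool) (i : Fin (weaving n m).crossings.length) :
    Fin.cast len i ∈ St s ↔ s i = true := by
  unfold St
  rw [Finset.mem_filter]
  simp

theorem sm_aux {p q : Pt n m} (S : Finset (Fin (n * m))) (x : Fin n × Fin m) (b : Bool)
    (hb : b = true ↔ (idx n m).symm x ∈ S) 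
    (h : if b then (p = (cross n m x).a ∧ q = (cross n m x).b) ∨ 
      (p = (cross n m x).c ∧ q = (cross n m x).d) else (p = (cross n m x).b ∧ q = (cross n m x).c) ∨ 
      (p = (cross n m x).d ∧ q = (cross n m x).a)) : 
    Quot.mk ((G n m).Cor S) (psi p) = Quot.mk ((G n m).Cor S) (psi q) := by
  obtain ⟨⟨i, hi⟩, k⟩ := x
  rcases Nat.mod_two_eq_zero_or_one i with h2 | h2
  · rw [cross_e i hi k h2] at h
    obtain ⟨p1, p2, p3, p4⟩ := psi_e (hi := hi) (k := k) h2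
    cases b
    · have hb' : (idx n m).symm (⟨i, hi⟩, k) ∉ S := fun h3 => by simpa using hb.2 h3
      rcases h with ⟨rfl, rfl⟩ | ⟨rfl, rfl⟩
      · rw [p3, p4]; exact Quot.sound (Or.inr (Or.inr ⟨hb', rfl⟩))
      · rw [p1, p2]; exact Quot.sound (Or.inr (Or.inr ⟨hb', rfl⟩))
    · have hb' : (idx n m).symm (⟨i, hi⟩, k) ∈ S := hb.1 rfl
      rcases h with ⟨rfl, rfl⟩ | ⟨rfl, rfl⟩
      · rw [p2, p3]; exact Quot.sound (Or.inr (Or.inl ⟨hb', rfl⟩))
      · rw [p4, p1]; exact Quot.sound (Or.inr (Or.inl ⟨hb', rfl⟩))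
  · rw [cross_o i hi k h2] at h
    obtain ⟨p1, p2, p3, p4⟩ := psi_o (hi := hi) (k := k) h2
    cases b
    · have hb' : (idx n m).symm (⟨i, hi⟩, k) ∉ S := fun h3 => by simpa using hb.2 h3
      rcases h with ⟨rfl, rfl⟩ | ⟨rfl, rfl⟩
      · rw [p2, p3]; exact Quot.sound (Or.inr (Or.inr ⟨hb', rfl⟩))
      · rw [p1, p4]; exact Quot.sound (Or.inr (Or.inr ⟨hb', rfl⟩))
    · have hb' : (idx n m).symm (⟨i, hi⟩, k) ∈ S := hb.1 rfl
      rcases h with ⟨rfl, rfl⟩ | ⟨rfl, rfl⟩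
      · rw [p1, p2]; exact Quot.sound (Or.inr (Or.inl ⟨hb', rfl⟩))
      · rw [p3, p4]; exact Quot.sound (Or.inr (Or.inl ⟨hb', rfl⟩))

theorem psi'_of {u : (Fin (n * m) × Bool) × Bool} {p : Pt n m} (h : psi p = u) : psi' u = p := by
  rw [← h, psi'_psi]

theorem sm_conv (S : Finset (Fin (n * m))) (s : Fin (weaving n m).crossings.length → Bool)
    (i : Fin (weaving n m).crossings.length) (b c : Bool) : 
    (s i = true → Quot.mk ((weaving n m).Joined s) (psi' ((Fin.cast len i, b), c)) = 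
      Quot.mk ((weaving n m).Joined s) (psi' (Pool.Agent.H891R2.MT.flip (Fin.cast len i, b), !c))) ∧ 
    (s i = false → Quot.mk ((weaving n m).Joined s) (psi' ((Fin.cast len i, b), c)) = 
      Quot.mk ((weaving n m).Joined s) (psi' ((Fin.cast len i, b), !c))) := by
  obtain ⟨⟨⟨j, hj⟩, k⟩, hx⟩ : ∃ x, x = idx n m (Fin.cast len i) := ⟨_, rfl⟩
  have hx' : (idx n m).symm (⟨j, hj⟩, k) = Fin.cast len i := by rw [hx]; simp
  have hc := getElem_cross i
  rw [← hx] at hc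
  rcases Nat.mod_two_eq_zero_or_one j with h2 | h2
  · rw [cross_e j hj k h2] at hc
    obtain ⟨p1, p2, p3, p4⟩ := psi_e (hi := hj) (k := k) h2
    rw [hx'] at p1 p2 p3 p4
    have q1 := psi'_of p1
    have q2 := psi'_of p2
    have q3 := psi'_of p3
    have q4 := psi'_of p4
    constructor
    · intro hs
      have r1 : Quot.mk ((weaving n m).Joined s) ((⟨j, hj⟩, k), .se) = 
          Quot.mk ((weaving n m).Joined s) ((⟨j, hj⟩, k), .ne) := 
        Quot.sound (Or.inr ⟨i, by rw [if_pos hs, hc]; exact Or.inl ⟨rfl, rfl⟩⟩)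
      have r2 : Quot.mk ((weaving n m).Joined s) ((⟨j, hj⟩, k), .nw) = 
          Quot.mk ((weaving n m).Joined s) ((⟨j, hj⟩, k), .sw) := 
        Quot.sound (Or.inr ⟨i, by rw [if_pos hs, hc]; exact Or.inr ⟨rfl, rfl⟩⟩)
      cases b <;> cases c <;> simp only [Pool.Agent.H891R2.MT.flip, Bool.not_false, Bool.not_true, q1, q2, q3, q4, r1, r2]
    · intro hs
      have r1 : Quot.mk ((weaving n m).Joined s) ((⟨j, hj⟩, k), .ne) = 
          Quot.mk ((weaving n m).Joined s) ((⟨j, hj⟩, k), .nw) := 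
        Quot.sound (Or.inr ⟨i, by rw [if_neg (by simp [hs]), hc]; exact Or.inl ⟨rfl, rfl⟩⟩)
      have r2 : Quot.mk ((weaving n m).Joined s) ((⟨j, hj⟩, k), .sw) = 
          Quot.mk ((weaving n m).Joined s) ((⟨j, hj⟩, k), .se) := 
        Quot.sound (Or.inr ⟨i, by rw [if_neg (by simp [hs]), hc]; exact Or.inr ⟨rfl, rfl⟩⟩)
      cases b <;> cases c <;> simp only [Bool.not_false, Bool.not_true, q1, q2, q3, q4, r1, r2]
  · rw [cross_o j hj k h2] at hc
    obtain ⟨p1, p2, p3, p4⟩ := psi_o (hi := hj) (k := k) h2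
    rw [hx'] at p1 p2 p3 p4
    have q1 := psi'_of p1
    have q2 := psi'_of p2
    have q3 := psi'_of p3
    have q4 := psi'_of p4
    constructor
    · intro hs
      have r1 : Quot.mk ((weaving n m).Joined s) ((⟨j, hj⟩, k), .sw) = 
          Quot.mk ((weaving n m).Joined s) ((⟨j, hj⟩, k), .se) := 
        Quot.sound (Or.inr ⟨i, by rw [if_pos hs, hc]; exact Or.inl ⟨rfl, rfl⟩⟩)
      have r2 : Quot.mk ((weaving n m).Joined s) ((⟨j, hj⟩, k), .ne) = 
          Quot.mk ((weaving n m).Joined s) ((⟨j, hj⟩, k), .nw) := 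
        Quot.sound (Or.inr ⟨i, by rw [if_pos hs, hc]; exact Or.inr ⟨rfl, rfl⟩⟩)
      cases b <;> cases c <;> simp only [Pool.Agent.H891R2.MT.flip, Bool.not_false, Bool.not_true, q1, q2, q3, q4, r1, r2]
    · intro hs
      have r1 : Quot.mk ((weaving n m).Joined s) ((⟨j, hj⟩, k), .se) = 
          Quot.mk ((weaving n m).Joined s) ((⟨j, hj⟩, k), .ne) := 
        Quot.sound (Or.inr ⟨i, by rw [if_neg (by simp [hs]), hc]; exact Or.inl ⟨rfl, rfl⟩⟩)
      have r2 : Quot.mk ((weaving n m).Joined s) ((⟨j, hj⟩, k), .nw) = 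
          Quot.mk ((weaving n m).Joined s) ((⟨j, hj⟩, k), .sw) := 
        Quot.sound (Or.inr ⟨i, by rw [if_neg (by simp [hs]), hc]; exact Or.inr ⟨rfl, rfl⟩⟩)
      cases b <;> cases c <;> simp only [Bool.not_false, Bool.not_true, q1, q2, q3, q4, r1, r2]

theorem loops_eq (s : Fin (weaving n m).crossings.length → Bool) :
    (weaving n m).loops s = (G n m).curves (St s) := by
  unfold Diagram.loops Ribbon.curves
  apply Nat.card_congr
  refine ⟨Quot.lift (fun p => Quot.mk _ (psi p)) ?_, Quot.lift (fun u => Quot.mk _ (psi' u)) ?_, ?_, ?_⟩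
  · rintro p q (h | ⟨i, h⟩)
    · rw [mem_arcs] at h
      obtain ⟨x, ⟨rfl, rfl⟩ | ⟨rfl, rfl⟩⟩ := h
      · obtain ⟨d, ⟨h1, h2⟩ | ⟨h1, h2⟩⟩ := arcNE x
        · rw [h1, h2]; exact Quot.sound (Or.inl ⟨rfl, rfl⟩)
        · rw [h1, h2]; symm; exact Quot.sound (Or.inl ⟨rfl, rfl⟩)
      · obtain ⟨d, ⟨h1, h2⟩ | ⟨h1, h2⟩⟩ := arcNW x
        · rw [h1, h2]; exact Quot.sound (Or.inl ⟨rfl, rfl⟩)
        · rw [h1, h2]; symm; exact Quot.sound (Or.inl ⟨rfl, rfl⟩)
    · rw [getElem_cross] at h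
      refine sm_aux (St s) (idx n m (Fin.cast len i)) (s i) ?_ h
      rw [Equiv.symm_apply_apply, mem_St]
  · rintro ⟨⟨e, b⟩, c⟩ v (⟨h1, rfl⟩ | ⟨h1, rfl⟩ | ⟨h1, rfl⟩)
    · simp only at h1
      subst h1
      rcases arc_conv (e, b) with h | h
      · exact Quot.sound (Or.inl h)
      · symm; exact Quot.sound (Or.inl h)
    · obtain ⟨i, rfl⟩ : ∃ i, e = Fin.cast len i := ⟨Fin.cast len.symm e, by simp⟩
      exact (sm_conv (St s) s i b c).1 ((mem_St s i).1 h1)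
    · obtain ⟨i, rfl⟩ : ∃ i, e = Fin.cast len i := ⟨Fin.cast len.symm e, by simp⟩
      refine (sm_conv (St s) s i b c).2 ?_
      have : ¬ s i = true := fun h => h1 ((mem_St s i).2 h)
      simpa using this
  · rintro ⟨p⟩
    show Quot.mk _ (psi' (psi p)) = Quot.mk _ p
    rw [psi'_psi]
  · rintro ⟨u⟩
    show Quot.mk _ (psi (psi' u)) = Quot.mk _ u
    rw [psi_psi']

end Pool.Agent.Q174.Wv
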