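import Pool.Agent.Q174.Wv.Vert

set_option autoImplicit false

/-! The Tait graph of the weaving diagram is connected and planar; the numbers of vertices. -/

namespace Pool.Agent.Q174.Wv

open LaurentPolynomial Pool.Agent.H891R2.Jones Pool.Agent.H891R2.MT Finset

variable {n m : ℕ} [NeZero m]

/-- the columns of parity `p` -/
def cols (n p : ℕ) : Finset (Fin n) := univ.filter (fun i => i.val % 2 = p)

theorem card_cols0 (n : ℕ) : (cols n 0).card = (n + 1) / 2 := by
  unfold cols
  rw [Finset.card_filter, Fin.sum_univ_eq_sum_range (fun i => if i % 2 = 0 then 1 else 0) n]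
  induction n with
  | zero => rfl
  | succ n ih =>
    rw [sum_range_succ, ih]
    split_ifs <;> omega

theorem card_cols1 (n : ℕ) : (cols n 1).card = n / 2 := by
  unfold cols
  rw [Finset.card_filter, Fin.sum_univ_eq_sum_range (fun i => if i % 2 = 1 then 1 else 0) n]
  induction n with
  | zero => rfl
  | succ n ih =>
    rw [sum_range_succ, ih]
    split_ifs <;> omega

/-- the vertices of the Tait graph -/
def V0 (n m : ℕ) : Finset (WW n m) :=
  ((cols n 0) ×ˢ (univ : Finset (Fin m))).disjSum (if n % 2 = 0 then {true} else ∅)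

/-- the vertices of the dual graph -/
def V1 (n m : ℕ) : Finset (WW n m) :=
  ((cols n 1) ×ˢ (univ : Finset (Fin m))).disjSum (if n % 2 = 1 then {false, true} else {false})

theorem card_V0 : (V0 n m).card = (n + 1) / 2 * m + (if n % 2 = 0 then 1 else 0) := by
  unfold V0
  rw [card_disjSum, card_product, card_cols0, card_univ, Fintype.card_fin]
  split_ifs <;> simp

theorem card_V1 : (V1 n m).card = n / 2 * m + (if n % 2 = 1 then 2 else 1) := by
  unfold V1
  rw [card_disjSum, card_product, card_cols1, card_univ, Fintype.card_fin]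
  split_ifs <;> simp

theorem range_phi0 (hn : 0 < n) : Set.range (phi (n := n) (m := m) 0) = ↑(V0 n m) := by
  ext w
  constructor
  · rintro ⟨⟨⟨⟨i, hi⟩, k⟩, b⟩, rfl⟩
    rw [mem_coe]
    unfold V0 cols
    rcases b with _ | _ <;> rcases Nat.mod_two_eq_zero_or_one i with h | h
    · rw [phi0_e0 h]; simp [h]
    · rw [phi0_o0 h]; simp; omega
    · rw [phi0_e1 h]; simp [h]
    · by_cases h1 : i + 1 < n
      · rw [phi0_o1 h h1]; simp; omega
      · rw [phi0_o1' h h1]
        rw [if_pos (by omega)]; simp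
  · intro hw
    rw [mem_coe] at hw
    unfold V0 cols at hw
    rcases w with ⟨⟨i, hi⟩, k⟩ | b
    · simp at hw
      exact ⟨((⟨i, hi⟩, k), true), phi0_e1 hw⟩
    · rw [inr_mem_disjSum] at hw
      by_cases h : n % 2 = 0
      · rw [if_pos h, mem_singleton] at hw
        subst hw
        exact ⟨((⟨n - 1, by omega⟩, 0), true), phi0_o1' (by omega) (by omega)⟩
      · rw [if_neg h] at hw
        simp at hw

theorem range_phi1 (hn : 0 < n) : Set.range (phi (n := n) (m := m) 1) = ↑(V1 n m) := by
  ext w
  constructor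
  · rintro ⟨⟨⟨⟨i, hi⟩, k⟩, b⟩, rfl⟩
    rw [mem_coe]
    unfold V1 cols
    rcases b with _ | _ <;> rcases Nat.mod_two_eq_zero_or_one i with h | h
    · by_cases h2 : 0 < i
      · rw [phi1_e0 h h2]; simp; omega
      · rw [phi1_e0' h h2]
        split_ifs <;> simp
    · rw [phi1_o0 h]; simp [h]
    · by_cases h1 : i + 1 < n
      · rw [phi1_e1 h h1]; simp; omega
      · rw [phi1_e1' h h1]
        rw [if_pos (by omega)]; simp
    · rw [phi1_o1 h]; simp [h]
  · intro hw
    rw [mem_coe] at hw
    unfold V1 cols at hw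
    rcases w with ⟨⟨i, hi⟩, k⟩ | b
    · simp at hw
      exact ⟨((⟨i, hi⟩, k), false), phi1_o0 hw⟩
    · rw [inr_mem_disjSum] at hw
      rcases b with _ | _
      · exact ⟨((⟨0, hn⟩, 0), false), phi1_e0' (by omega) (by omega)⟩
      · by_cases h : n % 2 = 1
        · exact ⟨((⟨n - 1, by omega⟩, 0), true), phi1_e1' (by omega) (by omega)⟩
        · rw [if_neg h] at hw
          simp at hw

/-- the number of cycles of a permutation of the darts from a labelling of the cycles -/
theorem card_quot_of {X : Type} {W : Type} (r : X → X → Prop) (f : X → W) (can : W → X)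
    (hf : ∀ x y, r x y → f x = f y) (hc : ∀ x, Quot.mk r x = Quot.mk r (can (f x))) (V : Finset W) 
    (hV : Set.range f = ↑V) : Nat.card (Quot r) = V.card := by
  have e : Quot r ≃ Set.range f := by
    refine Equiv.ofBijective (Quot.lift (fun x => (⟨f x, x, rfl⟩ : Set.range f)) 
      (fun x y h => Subtype.ext (hf x y h))) ⟨?_, ?_⟩
    · rintro ⟨x⟩ ⟨y⟩ h
      have h1 : f x = f y := congrArg Subtype.val h
      show Quot.mk r x = Quot.mk r y
      rw [hc x, hc y, h1]
    · rintro ⟨_, x, rfl⟩
      exact ⟨Quot.mk r x, rfl⟩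
  rw [Nat.card_congr e, hV]
  simp

/-- transfer of a relation along the numbering of the darts -/
theorem quot_transfer (g : (Fin n × Fin m) × Bool → (Fin n × Fin m) × Bool) 
    (g' : Fin (n * m) × Bool → Fin (n * m) × Bool) (h : ∀ d, didx n m (g' d) = g (didx n m d)) : 
    Nat.card (Quot (fun x y : Fin (n * m) × Bool => g' x = y)) = 
      Nat.card (Quot (fun x y : (Fin n × Fin m) × Bool => g x = y)) := by
  apply Nat.card_congr
  refine ⟨Quot.lift (fun x => Quot.mk _ (didx n m x)) ?_, 
    Quot.lift (fun x => Quot.mk _ ((didx n m).symm x)) ?_, ?_, ?_⟩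
  · rintro x y rfl
    exact Quot.sound (h x).symm
  · rintro x y rfl
    apply Quot.sound
    apply (didx n m).injective
    rw [h]
    simp
  · rintro ⟨x⟩
    show Quot.mk _ ((didx n m).symm (didx n m x)) = _
    rw [Equiv.symm_apply_apply]
  · rintro ⟨x⟩
    show Quot.mk _ (didx n m ((didx n m).symm x)) = _
    rw [Equiv.apply_symm_apply]

theorem verts_G (hn : 0 < n) : (G n m).verts = (n + 1) / 2 * m + (if n % 2 = 0 then 1 else 0) := by
  unfold Ribbon.verts
  rw [quot_transfer rf (G n m).rot (fun d => by rw [G_rot]; simp), ← card_V0]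
  apply card_quot_of _ (phi 0) (can0 hn)
  · rintro x y rfl
    exact (phi0_rf x).symm
  · exact conn0 hn _ (fun d => rfl)
  · exact range_phi0 hn

theorem didx_flip (d : Fin (n * m) × Bool) : didx n m (Pool.Agent.H891R2.MT.flip d) = fl (didx n m d) := rfl

theorem faces_G (hn : 0 < n) : (G n m).faces = n / 2 * m + (if n % 2 = 1 then 2 else 1) := by
  unfold Ribbon.faces
  rw [quot_transfer (fun d => fl (rf d)) (fun d => Pool.Agent.H891R2.MT.flip ((G n m).rot d)) 
    (fun d => by rw [didx_flip, G_rot]; simp), ← card_V1]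
  apply card_quot_of _ (phi 1) (can1 hn)
  · rintro x y rfl
    exact (phi1_rf x).symm
  · exact conn1 hn _ (fun d => rfl)
  · exact range_phi1 hn

theorem dual_rot (d : Fin (n * m) × Bool) : 
    (Pool.Agent.H891R2.DS.stateGraph (G n m) Finset.univ).rot d = 
      Pool.Agent.H891R2.MT.flip ((G n m).rot d) := by
  show Pool.Agent.H891R2.DS.flipOn univ ((G n m).rot d) = _
  rw [Pool.Agent.H891R2.DS.D1.flipOn_apply]
  simp

theorem verts_dual (hn : 0 < n) : (Pool.Agent.H891R2.DS.stateGraph (G n m) Finset.univ).verts = 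
    n / 2 * m + (if n % 2 = 1 then 2 else 1) := by
  rw [← faces_G hn]
  unfold Ribbon.verts Ribbon.faces
  congr 2
  funext x y
  rw [dual_rot]

/-- connectedness -/
theorem comps_G (hn : 0 < n) : (G n m).comps Finset.univ = 1 := by
  unfold Ribbon.comps
  set r := (fun x y : Fin (n * m) × Bool => (G n m).rot x = y ∨ 
    (x.1 ∈ (Finset.univ : Finset (Fin (n * m))) ∧ y = Pool.Agent.H891R2.MT.flip x)) with hr
  let c : (Fin n × Fin m) × Bool → Quot r := fun d => Quot.mk r ((didx n m).symm d)
  have c1 : ∀ d, c (rf d) = c d := by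
    intro d
    symm
    apply Quot.sound
    left
    rw [G_rot]
    simp
  have c2 : ∀ x b, c (x, b) = c (x, true) := by
    intro x b
    cases b
    · apply Quot.sound
      right
      exact ⟨mem_univ _, rfl⟩
    · rfl
  have c0 : ∀ k, c ((⟨0, hn⟩, k), true) = c ((⟨0, hn⟩, 0), true) := by
    apply fin_const (fun k : Fin m => c ((⟨0, hn⟩, k), true))
    intro k
    show c ((⟨0, hn⟩, k + 1), true) = c ((⟨0, hn⟩, k), true)
    rw [← c2 _ false, ← c1 ((⟨0, hn⟩, k + 1), false), rf_e0' (by omega) (by omega)]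
    simp
  have ci : ∀ (i : ℕ) (hi : i < n) (k : Fin m), c ((⟨i, hi⟩, k), true) = c ((⟨0, hn⟩, 0), true) := by
    intro i
    induction i with
    | zero => intro hi k; exact c0 k
    | succ i ih =>
      intro hi k
      rcases Nat.mod_two_eq_zero_or_one i with h | h
      · rw [← ih (by omega) k, ← c1 ((⟨i, by omega⟩, k), true), rf_e1 h hi, c2 _ false]
      · rw [← ih (by omega) (k + 1), ← c1 ((⟨i, by omega⟩, k + 1), true), rf_o1 h hi]
        simp
  rw [Nat.card_eq_one_iff_unique]
  constructor
  · constructor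
    rintro ⟨x⟩ ⟨y⟩
    have key : ∀ x, Quot.mk r x = c ((⟨0, hn⟩, 0), true) := by
      intro x
      have : Quot.mk r x = c (didx n m x) := by show _ = Quot.mk r ((didx n m).symm (didx n m x)); simp
      rw [this]
      obtain ⟨⟨⟨i, hi⟩, k⟩, b⟩ := didx n m x
      rw [c2, ci]
    rw [key x, key y]
  · exact ⟨c ((⟨0, hn⟩, 0), true)⟩

theorem planar_G (hn : 0 < n) : (G n m).Planar := by
  refine ⟨comps_G hn, ?_⟩
  rw [verts_G hn, faces_G hn]
  have h : n * m = (n + 1) / 2 * m + n / 2 * m := by
    rw [← add_mul]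
    congr 1
    omega
  rw [h]
  split_ifs <;> omega

end Pool.Agent.Q174.Wv
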