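import Pool.Agent.Q174.Wv.Defs
import Pool.Agent.H891R2.MT.T2

set_option autoImplicit false

/-! The ribbon graph (Tait graph) of the weaving diagram and its states. -/

namespace Pool.Agent.Q174.Wv

open LaurentPolynomial Pool.Agent.H891R2.Jones Pool.Agent.H891R2.MT Finset

variable {n m : ℕ} [NeZero m]

/-- the rotation on darts -/
def rf (d : (Fin n × Fin m) × Bool) : (Fin n × Fin m) × Bool :=
  if d.1.1.val % 2 = 0 then
    if d.2 then
      if h : d.1.1.val + 1 < n then ((⟨d.1.1.val + 1, h⟩, d.1.2), false)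
      else ((d.1.1, d.1.2 + 1), false)
    else
      if 0 < d.1.1.val then
        ((⟨d.1.1.val - 1, (Nat.sub_le _ _).trans_lt d.1.1.isLt⟩, d.1.2), true)
      else ((d.1.1, d.1.2 - 1), true)
  else
    if d.2 then
      if h : d.1.1.val + 1 < n then ((⟨d.1.1.val + 1, h⟩, d.1.2 - 1), true)
      else ((d.1.1, d.1.2 - 1), true)
    else
      ((⟨d.1.1.val - 1, (Nat.sub_le _ _).trans_lt d.1.1.isLt⟩, d.1.2 + 1), false)

/-- the inverse rotation on darts -/
def rg (d : (Fin n × Fin m) × Bool) : (Fin n × Fin m) × Bool :=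
  if d.1.1.val % 2 = 0 then
    if d.2 then
      if 0 < d.1.1.val then
        ((⟨d.1.1.val - 1, (Nat.sub_le _ _).trans_lt d.1.1.isLt⟩, d.1.2 + 1), true)
      else ((d.1.1, d.1.2 + 1), false)
    else
      if h : d.1.1.val + 1 < n then ((⟨d.1.1.val + 1, h⟩, d.1.2 - 1), false)
      else ((d.1.1, d.1.2 - 1), true)
  else
    if d.2 then
      if h : d.1.1.val + 1 < n then ((⟨d.1.1.val + 1, h⟩, d.1.2), false)
      else ((d.1.1, d.1.2 + 1), true)
    else
      ((⟨d.1.1.val - 1, (Nat.sub_le _ _).trans_lt d.1.1.isLt⟩, d.1.2), true)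

section
variable {i : ℕ} {hi : i < n} {k : Fin m}

theorem rf_e1 (h : i % 2 = 0) (h1 : i + 1 < n) :
    rf ((⟨i, hi⟩, k), true) = ((⟨i + 1, h1⟩, k), false) := by simp [rf, h, h1]
theorem rf_e1' (h : i % 2 = 0) (h1 : ¬ i + 1 < n) :
    rf ((⟨i, hi⟩, k), true) = ((⟨i, hi⟩, k + 1), false) := by simp [rf, h, h1]
theorem rf_e0 (h : i % 2 = 0) (h1 : 0 < i) :
    rf ((⟨i, hi⟩, k), false) = ((⟨i - 1, by omega⟩, k), true) := by simp [rf, h, h1]
theorem rf_e0' (h : i % 2 = 0) (h1 : ¬ 0 < i) :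
    rf ((⟨i, hi⟩, k), false) = ((⟨i, hi⟩, k - 1), true) := by simp [rf, h, h1]
theorem rf_o1 (h : i % 2 = 1) (h1 : i + 1 < n) :
    rf ((⟨i, hi⟩, k), true) = ((⟨i + 1, h1⟩, k - 1), true) := by simp [rf, h, h1]
theorem rf_o1' (h : i % 2 = 1) (h1 : ¬ i + 1 < n) :
    rf ((⟨i, hi⟩, k), true) = ((⟨i, hi⟩, k - 1), true) := by simp [rf, h, h1]
theorem rf_o0 (h : i % 2 = 1) :
    rf ((⟨i, hi⟩, k), false) = ((⟨i - 1, by omega⟩, k + 1), false) := by simp [rf, h]

theorem rg_e1 (h : i % 2 = 0) (h1 : 0 < i) :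
    rg ((⟨i, hi⟩, k), true) = ((⟨i - 1, by omega⟩, k + 1), true) := by simp [rg, h, h1]
theorem rg_e1' (h : i % 2 = 0) (h1 : ¬ 0 < i) :
    rg ((⟨i, hi⟩, k), true) = ((⟨i, hi⟩, k + 1), false) := by simp [rg, h, h1]
theorem rg_e0 (h : i % 2 = 0) (h1 : i + 1 < n) :
    rg ((⟨i, hi⟩, k), false) = ((⟨i + 1, h1⟩, k - 1), false) := by simp [rg, h, h1]
theorem rg_e0' (h : i % 2 = 0) (h1 : ¬ i + 1 < n) :
    rg ((⟨i, hi⟩, k), false) = ((⟨i, hi⟩, k - 1), true) := by simp [rg, h, h1]
theorem rg_o1 (h : i % 2 = 1) (h1 : i + 1 < n) :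
    rg ((⟨i, hi⟩, k), true) = ((⟨i + 1, h1⟩, k), false) := by simp [rg, h, h1]
theorem rg_o1' (h : i % 2 = 1) (h1 : ¬ i + 1 < n) :
    rg ((⟨i, hi⟩, k), true) = ((⟨i, hi⟩, k + 1), true) := by simp [rg, h, h1]
theorem rg_o0 (h : i % 2 = 1) :
    rg ((⟨i, hi⟩, k), false) = ((⟨i - 1, by omega⟩, k), true) := by simp [rg, h]
end

theorem rg_rf (d : (Fin n × Fin m) × Bool) : rg (rf d) = d := by
  obtain ⟨⟨⟨i, hi⟩, k⟩, b⟩ := d
  rcases b with _ | _ <;> rcases Nat.mod_two_eq_zero_or_one i with h | h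
  · by_cases h2 : 0 < i
    · rw [rf_e0 h h2, rg_o1 (by omega) (by omega)]
      simp only [Nat.sub_add_cancel h2]
    · rw [rf_e0' h h2, rg_e1' h h2]
      simp
  · rw [rf_o0 h, rg_e0 (by omega) (by omega)]
    simp only [Nat.sub_add_cancel (show 1 ≤ i by omega), add_sub_cancel_right]
  · by_cases h1 : i + 1 < n
    · rw [rf_e1 h h1, rg_o0 (by omega)]
      simp
    · rw [rf_e1' h h1, rg_e0' h h1]
      simp
  · by_cases h1 : i + 1 < n
    · rw [rf_o1 h h1, rg_e1 (by omega) (by omega)]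
      simp
    · rw [rf_o1' h h1, rg_o1' h h1]
      simp

theorem rf_rg (d : (Fin n × Fin m) × Bool) : rf (rg d) = d := by
  obtain ⟨⟨⟨i, hi⟩, k⟩, b⟩ := d
  rcases b with _ | _ <;> rcases Nat.mod_two_eq_zero_or_one i with h | h
  · by_cases h1 : i + 1 < n
    · rw [rg_e0 h h1, rf_o0 (by omega)]
      simp
    · rw [rg_e0' h h1, rf_e1' h h1]
      simp
  · rw [rg_o0 h, rf_e1 (by omega) (by omega)]
    simp only [Nat.sub_add_cancel (show 1 ≤ i by omega)]
  · by_cases h2 : 0 < i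
    · rw [rg_e1 h h2, rf_o1 (by omega) (by omega)]
      simp only [Nat.sub_add_cancel h2, add_sub_cancel_right]
    · rw [rg_e1' h h2, rf_e0' h h2]
      simp
  · by_cases h1 : i + 1 < n
    · rw [rg_o1 h h1, rf_e0 (by omega) (by omega)]
      simp
    · rw [rg_o1' h h1, rf_o1' h h1]
      simp

/-- the rotation -/
def rot0 (n m : ℕ) [NeZero m] : Equiv.Perm ((Fin n × Fin m) × Bool) where
  toFun := rf
  invFun := rg
  left_inv := rg_rf
  right_inv := rf_rg

/-- numbering of the darts -/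
def didx (n m : ℕ) : Fin (n * m) × Bool ≃ (Fin n × Fin m) × Bool :=
  (idx n m).prodCongr (Equiv.refl Bool)

/-- the Tait graph of the weaving diagram; its vertices are the circles of the all-`B` state -/
def G (n m : ℕ) [NeZero m] : Ribbon (n * m) := ⟨(didx n m).trans ((rot0 n m).trans (didx n m).symm)⟩

theorem G_rot (d : Fin (n * m) × Bool) : (G n m).rot d = (didx n m).symm (rf (didx n m d)) := rfl

/-- the corner of the ribbon graph at a marked point -/
def psi (p : Pt n m) : (Fin (n * m) × Bool) × Bool :=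
  if p.1.1.val % 2 = 0 then
    match p.2 with
    | .sw => (((idx n m).symm p.1, false), true)
    | .se => (((idx n m).symm p.1, false), false)
    | .ne => (((idx n m).symm p.1, true), true)
    | .nw => (((idx n m).symm p.1, true), false)
  else
    match p.2 with
    | .sw => (((idx n m).symm p.1, false), false)
    | .se => (((idx n m).symm p.1, true), true)
    | .ne => (((idx n m).symm p.1, true), false)
    | .nw => (((idx n m).symm p.1, false), true)

/-- its inverse -/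
def psi' (u : (Fin (n * m) × Bool) × Bool) : Pt n m :=
  if (idx n m u.1.1).1.val % 2 = 0 then
    match u.1.2, u.2 with
    | false, true => (idx n m u.1.1, .sw)
    | false, false => (idx n m u.1.1, .se)
    | true, true => (idx n m u.1.1, .ne)
    | true, false => (idx n m u.1.1, .nw)
  else
    match u.1.2, u.2 with
    | false, false => (idx n m u.1.1, .sw)
    | true, true => (idx n m u.1.1, .se)
    | true, false => (idx n m u.1.1, .ne)
    | false, true => (idx n m u.1.1, .nw)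

theorem psi'_psi (p : Pt n m) : psi' (psi p) = p := by
  obtain ⟨x, c⟩ := p
  unfold psi psi'
  by_cases h : x.1.val % 2 = 0 <;> rcases c with _ | _ | _ | _ <;> simp [h]

theorem psi_psi' (u : (Fin (n * m) × Bool) × Bool) : psi (psi' u) = u := by
  obtain ⟨⟨e, b⟩, c⟩ := u
  unfold psi psi'
  by_cases h : (idx n m e).1.val % 2 = 0 <;> rcases b with _ | _ <;> rcases c with _ | _ <;> simp [h]

end Pool.Agent.Q174.Wv
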