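import Pool.Agent.Q174.Wv.Loops
import Pool.Agent.H891R2.DS.D1
import Pool.Agent.H891R2.MT.T3a

set_option autoImplicit false

/-! The vertices of the Tait graph of the weaving diagram and of its dual. -/

namespace Pool.Agent.Q174.Wv

open LaurentPolynomial Pool.Agent.H891R2.Jones Pool.Agent.H891R2.MT Finset

variable {n m : ℕ} [NeZero m]

theorem fin_const {α : Type*} (f : Fin m → α) (h : ∀ k, f (k + 1) = f k) (k : Fin m) : f k = f 0 := by
  obtain ⟨m', rfl⟩ := Nat.exists_eq_succ_of_ne_zero (NeZero.ne m)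
  induction k using Fin.induction with
  | zero => rfl
  | succ i ih =>
    rw [← ih, ← h i.castSucc]
    congr 1
    exact (Fin.coeSucc_eq_succ).symm

/-- the vertices: `inl (i, k)` is the circle between the crossings `(i, k)` and `(i, k + 1)` of a
column `i` in which the crossings are smoothed horizontally; `inr false` (`inr true`) is the circle at
the left (right) end, if there is one -/
abbrev WW (n m : ℕ) : Type := (Fin n × Fin m) ⊕ Bool

/-- the first end of a crossing, `p` the parity of the columns with the ring vertices -/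
def e1 (p : ℕ) (x : Fin n × Fin m) : WW n m :=
  if x.1.val % 2 = p then .inl (x.1, x.2 - 1) else
    if 0 < x.1.val then .inl (⟨x.1.val - 1, (Nat.sub_le _ _).trans_lt x.1.isLt⟩, x.2) else .inr false

/-- the second end of a crossing -/
def e2 (p : ℕ) (x : Fin n × Fin m) : WW n m :=
  if x.1.val % 2 = p then .inl x else
    if h : x.1.val + 1 < n then .inl (⟨x.1.val + 1, h⟩, x.2 - 1) else .inr true

/-- the vertex of a dart (of the Tait graph for `p = 0`, of its dual for `p = 1`) -/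
def phi (p : ℕ) (d : (Fin n × Fin m) × Bool) : WW n m :=
  if p = 1 ∧ d.1.1.val % 2 = 1 then (if d.2 then e1 p d.1 else e2 p d.1)
  else (if d.2 then e2 p d.1 else e1 p d.1)

section
variable {i : ℕ} {hi : i < n} {k : Fin m}

theorem phi0_e0 (h : i % 2 = 0) : phi 0 ((⟨i, hi⟩, k), false) = .inl (⟨i, hi⟩, k - 1) := by
  simp [phi, e1, h]
theorem phi0_e1 (h : i % 2 = 0) : phi 0 ((⟨i, hi⟩, k), true) = .inl (⟨i, hi⟩, k) := by
  simp [phi, e2, h]
theorem phi0_o0 (h : i % 2 = 1) : phi 0 ((⟨i, hi⟩, k), false) = .inl (⟨i - 1, by omega⟩, k) := by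
  have : 0 < i := by omega
  simp [phi, e1, h, this]
theorem phi0_o1 (h : i % 2 = 1) (h1 : i + 1 < n) : 
    phi 0 ((⟨i, hi⟩, k), true) = .inl (⟨i + 1, h1⟩, k - 1) := by
  simp [phi, e2, h, h1]
theorem phi0_o1' (h : i % 2 = 1) (h1 : ¬ i + 1 < n) : 
    phi 0 ((⟨i, hi⟩, k), true) = .inr true := by
  simp [phi, e2, h, h1]

theorem phi1_e0 (h : i % 2 = 0) (h1 : 0 < i) : 
    phi 1 ((⟨i, hi⟩, k), false) = .inl (⟨i - 1, by omega⟩, k) := by
  simp [phi, e1, h, h1]
theorem phi1_e0' (h : i % 2 = 0) (h1 : ¬ 0 < i) : 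
    phi 1 ((⟨i, hi⟩, k), false) = .inr false := by
  simp [phi, e1, h, h1]
theorem phi1_e1 (h : i % 2 = 0) (h1 : i + 1 < n) : 
    phi 1 ((⟨i, hi⟩, k), true) = .inl (⟨i + 1, h1⟩, k - 1) := by
  simp [phi, e2, h, h1]
theorem phi1_e1' (h : i % 2 = 0) (h1 : ¬ i + 1 < n) : 
    phi 1 ((⟨i, hi⟩, k), true) = .inr true := by
  simp [phi, e2, h, h1]
theorem phi1_o0 (h : i % 2 = 1) : phi 1 ((⟨i, hi⟩, k), false) = .inl (⟨i, hi⟩, k) := by
  simp [phi, e2, h]
theorem phi1_o1 (h : i % 2 = 1) : phi 1 ((⟨i, hi⟩, k), true) = .inl (⟨i, hi⟩, k - 1) := by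
  simp [phi, e1, h]
end

/-- flip of a dart -/
def fl (d : (Fin n × Fin m) × Bool) : (Fin n × Fin m) × Bool := (d.1, !d.2)

theorem phi0_rf (d : (Fin n × Fin m) × Bool) : phi 0 (rf d) = phi 0 d := by
  obtain ⟨⟨⟨i, hi⟩, k⟩, b⟩ := d
  rcases b with _ | _ <;> rcases Nat.mod_two_eq_zero_or_one i with h | h
  · rw [phi0_e0 h]
    by_cases h2 : 0 < i
    · rw [rf_e0 h h2, phi0_o1 (by omega) (by omega)]
      simp only [Nat.sub_add_cancel h2]
    · rw [rf_e0' h h2, phi0_e1 h]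
  · rw [phi0_o0 h, rf_o0 h, phi0_e0 (by omega)]
    simp
  · rw [phi0_e1 h]
    by_cases h1 : i + 1 < n
    · rw [rf_e1 h h1, phi0_o0 (by omega)]
      simp
    · rw [rf_e1' h h1, phi0_e0 h]
      simp
  · by_cases h1 : i + 1 < n
    · rw [rf_o1 h h1, phi0_o1 h h1, phi0_e1 (by omega)]
    · rw [rf_o1' h h1, phi0_o1' h h1, phi0_o1' h h1]

theorem phi1_rf (d : (Fin n × Fin m) × Bool) : phi 1 (fl (rf d)) = phi 1 d := by
  obtain ⟨⟨⟨i, hi⟩, k⟩, b⟩ := d
  rcases b with _ | _ <;> rcases Nat.mod_two_eq_zero_or_one i with h | h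
  · by_cases h2 : 0 < i
    · rw [rf_e0 h h2, phi1_e0 h h2]
      show phi 1 ((⟨i - 1, _⟩, k), false) = _
      rw [phi1_o0 (by omega)]
    · rw [rf_e0' h h2, phi1_e0' h h2]
      show phi 1 ((⟨i, _⟩, k - 1), false) = _
      rw [phi1_e0' h h2]
  · rw [phi1_o0 h, rf_o0 h]
    show phi 1 ((⟨i - 1, _⟩, k + 1), true) = _
    rw [phi1_e1 (by omega) (by omega)]
    simp only [Nat.sub_add_cancel (show 1 ≤ i by omega), add_sub_cancel_right]
  · by_cases h1 : i + 1 < n
    · rw [rf_e1 h h1, phi1_e1 h h1]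
      show phi 1 ((⟨i + 1, _⟩, k), true) = _
      rw [phi1_o1 (by omega)]
    · rw [rf_e1' h h1, phi1_e1' h h1]
      show phi 1 ((⟨i, _⟩, k + 1), true) = _
      rw [phi1_e1' h h1]
  · rw [phi1_o1 h]
    by_cases h1 : i + 1 < n
    · rw [rf_o1 h h1]
      show phi 1 ((⟨i + 1, _⟩, k - 1), false) = _
      rw [phi1_e0 (by omega) (by omega)]
      simp
    · rw [rf_o1' h h1]
      show phi 1 ((⟨i, _⟩, k - 1), false) = _
      rw [phi1_o0 h]

/-- the canonical dart at a vertex of the Tait graph -/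
def can0 (hn : 0 < n) (w : WW n m) : (Fin n × Fin m) × Bool :=
  match w with
  | .inl x => (x, true)
  | .inr _ => ((⟨n - 1, by omega⟩, 0), true)

/-- the canonical dart at a vertex of the dual graph -/
def can1 (hn : 0 < n) (w : WW n m) : (Fin n × Fin m) × Bool :=
  match w with
  | .inl x => (x, false)
  | .inr false => ((⟨0, hn⟩, 0), false)
  | .inr true => ((⟨n - 1, by omega⟩, 0), true)

theorem conn0 (hn : 0 < n) (r : (Fin n × Fin m) × Bool → (Fin n × Fin m) × Bool → Prop) 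
    (hr : ∀ d, r d (rf d)) (d : (Fin n × Fin m) × Bool) : 
    Quot.mk r d = Quot.mk r (can0 hn (phi 0 d)) := by
  have hq : ∀ d, Quot.mk r d = Quot.mk r (rf d) := fun d => Quot.sound (hr d)
  obtain ⟨⟨⟨i, hi⟩, k⟩, b⟩ := d
  rcases b with _ | _ <;> rcases Nat.mod_two_eq_zero_or_one i with h | h
  · rw [phi0_e0 h]
    show _ = Quot.mk r ((⟨i, hi⟩, k - 1), true)
    by_cases h1 : i + 1 < n
    · rw [hq ((⟨i, hi⟩, k - 1), true), rf_e1 h h1, hq ((⟨i + 1, h1⟩, k - 1), false), rf_o0 (by omega)]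
      simp
    · rw [hq ((⟨i, hi⟩, k - 1), true), rf_e1' h h1]
      simp
  · rw [phi0_o0 h]
    show _ = Quot.mk r ((⟨i - 1, _⟩, k), true)
    rw [hq ((⟨i - 1, _⟩, k), true), rf_e1 (by omega) (by omega)]
    simp only [Nat.sub_add_cancel (show 1 ≤ i by omega)]
  · rw [phi0_e1 h]
    rfl
  · by_cases h1 : i + 1 < n
    · rw [phi0_o1 h h1, hq, rf_o1 h h1]
      rfl
    · rw [phi0_o1' h h1]
      have e : i = n - 1 := by omega
      subst e
      show _ = Quot.mk r ((⟨n - 1, _⟩, 0), true)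
      have := fin_const (fun k : Fin m => Quot.mk r (((⟨n - 1, hi⟩ : Fin n), k), true)) (fun k => by
        show Quot.mk r ((⟨n - 1, hi⟩, k + 1), true) = _
        rw [hq ((⟨n - 1, hi⟩, k + 1), true), rf_o1' h h1]
        simp) k
      exact this

theorem conn1 (hn : 0 < n) (r : (Fin n × Fin m) × Bool → (Fin n × Fin m) × Bool → Prop) 
    (hr : ∀ d, r d (fl (rf d))) (d : (Fin n × Fin m) × Bool) : 
    Quot.mk r d = Quot.mk r (can1 hn (phi 1 d)) := by
  have hq : ∀ d, Quot.mk r d = Quot.mk r (fl (rf d)) := fun d => Quot.sound (hr d)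
  have odd1 : ∀ (i : ℕ) (hi : i < n) (k : Fin m), i % 2 = 1 → 
      Quot.mk r ((⟨i, hi⟩, k), true) = Quot.mk r ((⟨i, hi⟩, k - 1), false) := by
    intro i hi k h
    by_cases h1 : i + 1 < n
    · rw [hq ((⟨i, hi⟩, k), true), rf_o1 h h1]
      show Quot.mk r ((⟨i + 1, _⟩, k - 1), false) = _
      rw [hq ((⟨i + 1, _⟩, k - 1), false), rf_e0 (by omega) (by omega)]
      rfl
    · rw [hq ((⟨i, hi⟩, k), true), rf_o1' h h1]
      rfl
  obtain ⟨⟨⟨i, hi⟩, k⟩, b⟩ := d
  rcases b with _ | _ <;> rcases Nat.mod_two_eq_zero_or_one i with h | h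
  · by_cases h2 : 0 < i
    · rw [phi1_e0 h h2, hq, rf_e0 h h2]
      rfl
    · rw [phi1_e0' h h2]
      have e : i = 0 := by omega
      subst e
      show _ = Quot.mk r ((⟨0, _⟩, 0), false)
      have := fin_const (fun k : Fin m => Quot.mk r (((⟨0, hi⟩ : Fin n), k), false)) (fun k => by
        show Quot.mk r ((⟨0, hi⟩, k + 1), false) = _
        rw [hq ((⟨0, hi⟩, k + 1), false), rf_e0' h h2]
        simp [fl]) k
      exact this
  · rw [phi1_o0 h]
    rfl
  · by_cases h1 : i + 1 < n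
    · rw [phi1_e1 h h1]
      show _ = Quot.mk r ((⟨i + 1, _⟩, k - 1), false)
      rw [hq, rf_e1 h h1]
      exact odd1 (i + 1) h1 k (by omega)
    · rw [phi1_e1' h h1]
      have e : i = n - 1 := by omega
      subst e
      show _ = Quot.mk r ((⟨n - 1, _⟩, 0), true)
      have := fin_const (fun k : Fin m => Quot.mk r (((⟨n - 1, hi⟩ : Fin n), k), true)) (fun k => by
        show Quot.mk r ((⟨n - 1, hi⟩, k + 1), true) = _
        symm
        rw [hq ((⟨n - 1, hi⟩, k), true), rf_e1' h h1]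
        rfl) k
      exact this
  · rw [phi1_o1 h]
    exact odd1 i hi k h

end Pool.Agent.Q174.Wv
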